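import Pool.Agent.K9h58.SH.Stm

/-! # Project SH: the rational numbers recovered from windows have bounded denominators -/

set_option autoImplicit false

open Polynomial Filter

namespace Pool.Agent.K9h58.SH

lemma win_map_ne {P : ℤ[X]} (hP : P ≠ 0) : P.map (Int.castRingHom ℚ) ≠ 0 :=
  (Polynomial.map_ne_zero_iff (Int.castRingHom ℚ).injective_int).2 hP

lemma win_ev_int (P : ℤ[X]) (z : ℤ) : ev P (z : ℚ) = ((P.eval z : ℤ) : ℚ) := by
  unfold ev
  rw [Polynomial.eval_intCast_map]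
  rfl

lemma win_ev_nat (P : ℤ[X]) (n : ℕ) : ev P (n : ℚ) = ((P.eval (n : ℤ) : ℤ) : ℚ) := by
  have := win_ev_int P (n : ℤ)
  simpa using this

lemma win_ne {P : ℤ[X]} (hP : P ≠ 0) : ∃ X : ℕ, ∀ x : ℚ, (X : ℚ) ≤ x → ev P x ≠ 0 := by
  have h := Polynomial.eventually_atTop_not_isRoot (P.map (Int.castRingHom ℚ)) (win_map_ne hP)
  obtain ⟨y, hy⟩ := eventually_atTop.1 h
  obtain ⟨X, hX⟩ := exists_nat_ge y
  exact ⟨X, fun x hx => hy x (hX.trans hx)⟩

lemma Blk.symm {P Q : ℤ[X]} {x : ℚ} {m n : ℕ} (h : Blk P Q x m n) : Blk Q P x m n := by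
  unfold Blk at *
  exact h.symm

/-- a bounded sequence which is almost nondecreasing has a long constant run -/
lemma win_run (g : ℕ → ℕ) (b D₀ K : ℕ) (hK : b * D₀ ≤ K) (hb : ∀ i, i ≤ K → g i < b)
    (hm : ∀ i, i < K → g i ≤ g (i + 1)) :
    ∃ m, m < b ∧ ∀ t, t ≤ D₀ → g (m * D₀ + t) = g (m * D₀) := by
  have hmono : ∀ i j, i ≤ j → j ≤ K → g i ≤ g j := by
    intro i j hij
    induction j, hij using Nat.le_induction with
    | base => exact fun _ => le_rfl
    | succ j hj ih => exact fun h => (ih (by omega)).trans (hm j (by omega))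
  by_contra hcon
  push Not at hcon
  have key : ∀ m, m ≤ b → m ≤ g (m * D₀) := by
    intro m
    induction m with
    | zero => exact fun _ => Nat.zero_le _
    | succ m ih =>
      intro hmb
      have h1 := ih (by omega)
      obtain ⟨t, ht, hne⟩ := hcon m (by omega)
      have hKm : (m + 1) * D₀ ≤ K := (Nat.mul_le_mul_right _ hmb).trans hK
      have e : (m + 1) * D₀ = m * D₀ + D₀ := by ring
      have h2 : g (m * D₀) ≤ g (m * D₀ + t) := hmono _ _ (by omega) (by omega)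
      have h3 : g (m * D₀ + t) ≤ g ((m + 1) * D₀) := hmono _ _ (by omega) (by omega)
      omega
  have h1 := key b le_rfl
  have h2 := hb (b * D₀) hK
  omega

theorem win (h1 : S_PADIC) (h2 : S_SIZE) (h3 : S_LINE) : S_WIN := by
  intro P Q hP hQ hd hl hN p hp hval
  obtain ⟨N, hN'⟩ := hN
  obtain ⟨XP, hXP⟩ := win_ne hP
  obtain ⟨XQ, hXQ⟩ := win_ne hQ
  set d := P.natDegree with hdd
  have hPn : ∀ n : ℕ, XP ≤ n → P.eval (n : ℤ) ≠ 0 := by
    intro n hn h0
    have := hXP n (by exact_mod_cast hn)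
    rw [win_ev_nat, h0] at this
    simp at this
  have hQn : ∀ n : ℕ, XQ ≤ n → Q.eval (n : ℤ) ≠ 0 := by
    intro n hn h0
    have := hXQ n (by exact_mod_cast hn)
    rw [win_ev_nat, h0] at this
    simp at this
  -- not proportional
  have hprop : ∀ c : ℚ, P.map (Int.castRingHom ℚ) ≠ C c * Q.map (Int.castRingHom ℚ) := by
    intro c hc
    have hlc : (P.leadingCoeff : ℚ) = c * Q.leadingCoeff := by
      have := congrArg leadingCoeff hc
      rw [leadingCoeff_mul, leadingCoeff_C, leadingCoeff_map_of_injective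
        (Int.castRingHom ℚ).injective_int, leadingCoeff_map_of_injective
        (Int.castRingHom ℚ).injective_int] at this
      simpa using this
    have hQl : (Q.leadingCoeff : ℚ) ≠ 0 := by exact_mod_cast leadingCoeff_ne_zero.2 hQ
    have hc1 : |c| = 1 := by
      have e1 : |(P.leadingCoeff : ℚ)| = |(Q.leadingCoeff : ℚ)| := by exact_mod_cast hl
      rw [hlc, abs_mul] at e1
      have e2 : (0 : ℚ) < |(Q.leadingCoeff : ℚ)| := abs_pos.2 hQl
      nlinarith
    have h4 := hN' N le_rfl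
    have h5 : ev P (N : ℚ) = c * ev Q (N : ℚ) := by
      unfold ev
      rw [hc, eval_mul, eval_C]
    rw [win_ev_nat, win_ev_nat] at h5
    have h6 : |((P.eval (N : ℤ) : ℤ) : ℚ)| = |((Q.eval (N : ℤ) : ℤ) : ℚ)| := by
      rw [h5, abs_mul, hc1, one_mul]
    have h7 : |P.eval (N : ℤ)| = |Q.eval (N : ℤ)| := by exact_mod_cast h6
    omega
  -- the p-adic bound for the gaps
  obtain ⟨Λ, N₀, hΛ, hpad⟩ : ∃ Λ N₀ : ℕ, 0 < Λ ∧ ∀ (x : ℚ) (ν : ℕ → ℕ), N₀ ≤ ν 0 →
      (∀ i, i ≤ d → ev P (x + i) ≠ 0 ∧ ev Q (x + i) ≠ 0 ∧ ν i + Λ ≤ ν (i + 1) ∧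
        Blk P Q (x + i) (ν i) (ν (i + 1))) → False := by
    rcases hval with ⟨N₁, hv1, hv2⟩ | ⟨N₁, hv1, hv2⟩
    · obtain ⟨Λ, hΛ, h⟩ := h1 P Q p (max N₁ (max XP XQ)) hp hP hQ hd
        (fun n hn => ⟨hPn n (by omega), hQn n (by omega), hv1 n (by omega)⟩)
        (by
          obtain ⟨n, hn, hn'⟩ := hv2 (max N₁ (max XP XQ))
          exact ⟨n, hn, hn'⟩)
      exact ⟨Λ, _, hΛ, h⟩
    · obtain ⟨Λ, hΛ, h⟩ := h1 Q P p (max N₁ (max XP XQ)) hp hQ hP hd.symm
        (fun n hn => ⟨hQn n (by omega), hPn n (by omega), hv1 n (by omega)⟩)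
        (by
          obtain ⟨n, hn, hn'⟩ := hv2 (max N₁ (max XP XQ))
          exact ⟨n, hn, hn'⟩)
      refine ⟨Λ, _, hΛ, fun x ν hν hi => h x ν hν fun i hid => ?_⟩
      obtain ⟨e1, e2, e3, e4⟩ := hi i (by omega)
      exact ⟨e2, e1, e3, e4.symm⟩
  -- the size bound
  set M : ℕ := 2 * d + 2 * Λ with hM
  obtain ⟨XS, hXS⟩ := h2 P Q hP hQ hd hl ⟨N, hN'⟩ M (by omega)
  -- the lines
  have hline : ∀ L : ℕ, ∃ Z : Finset ℚ, 0 < L → ∀ (x : ℚ) (n : ℕ),
      (∀ t : ℕ, t ≤ d * (L + 1) → Blk P Q (x + t) (n + t * L) (n + (t + 1) * L)) →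
      x - n / L ∈ Z := by
    intro L
    by_cases hL : 0 < L
    · obtain ⟨Z, hZ⟩ := h3 P Q d hQ le_rfl hd.symm.le hprop L hL
      exact ⟨Z, fun _ => hZ⟩
    · exact ⟨∅, fun h => absurd h hL⟩
  choose Z hZ using hline
  set D₀ : ℕ := d * (2 * Λ + 1) + 1 with hD0
  set K : ℕ := 2 * Λ * D₀ + d + 2 with hK
  set X₀ : ℕ := max (max XP XQ) (max XS (max N₀ N)) with hX0
  refine ⟨K, X₀, ∏ L ∈ Finset.Ico 1 (2 * Λ), (L * ∏ ρ ∈ Z L, ρ.den), ?_, ?_⟩
  · refine Finset.prod_pos fun L hL => ?_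
    rw [Finset.mem_Ico] at hL
    exact Nat.mul_pos (by omega) (Finset.prod_pos fun ρ _ => ρ.den_pos)
  intro x ν hx hν hw
  have hνX : ∀ i, i ≤ K → X₀ ≤ ν i := by
    intro i
    induction i with
    | zero => exact fun _ => hν
    | succ i ih =>
      intro hi
      have := (hw i (by omega)).1
      have := ih (by omega)
      omega
  have hxX : ∀ i : ℕ, (X₀ : ℚ) ≤ x + i := by
    intro i
    have : (0 : ℚ) ≤ i := Nat.cast_nonneg i
    linarith
  set g : ℕ → ℕ := fun i => ν (i + 1) - ν i with hg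
  have hgν : ∀ i, i < K → ν (i + 1) = ν i + g i ∧ 0 < g i := by
    intro i hi
    have := (hw i hi).1
    simp only [hg]
    omega
  have hstep : ∀ i, i + 1 < K → (M - 1) * g i ≤ M * g (i + 1) := by
    intro i hi
    have e1 := hw i (by omega)
    have e2 := hw (i + 1) hi
    have e3 := hXS (x + i) (ν i) (ν (i + 1)) (ν (i + 1 + 1))
      (by
        have := hxX i
        have h4 : (XS : ℚ) ≤ X₀ := by exact_mod_cast (by omega : XS ≤ X₀)
        linarith)
      (by have := hνX i (by omega); omega) e1.1 e2.1 e1.2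
      (by
        have := e2.2
        push_cast at this
        rw [← add_assoc] at this
        exact this)
    obtain ⟨f1, f2⟩ := hgν i (by omega)
    obtain ⟨f3, f4⟩ := hgν (i + 1) hi
    have f5 : (ν (i + 1) : ℚ) - ν i = g i := by rw [f1]; push_cast; ring
    have f6 : (ν (i + 1 + 1) : ℚ) - ν (i + 1) = g (i + 1) := by rw [f3]; push_cast; ring
    rw [f5, f6] at e3
    have hM1 : 1 ≤ M := by omega
    have f7 : (((M - 1) * g i : ℕ) : ℚ) ≤ ((M * g (i + 1) : ℕ) : ℚ) := by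
      push_cast [Nat.cast_sub hM1]
      exact e3
    exact_mod_cast f7
  have hchain : ∀ k i, i + k < K → k ≤ M → (M - k) * g i ≤ M * g (i + k) := by
    intro k
    induction k with
    | zero => intro i _ _; simp
    | succ k ih =>
      intro i hi hk
      have e1 := ih i (by omega) (by omega)
      have e2 := hstep (i + k) (by omega)
      rw [← add_assoc]
      have hMp : 0 < M := by omega
      refine Nat.le_of_mul_le_mul_left ?_ hMp
      obtain ⟨r, hr⟩ : ∃ r, M = k + 1 + r := ⟨M - (k + 1), by omega⟩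
      have e3 : M - k = r + 1 := by omega
      have e4 : M - (k + 1) = r := by omega
      have e5 : M - 1 = k + r := by omega
      rw [e3] at e1
      rw [e5] at e2
      rw [e4]
      have e6 : (k + r) * ((r + 1) * g i) ≤ (k + r) * (M * g (i + k)) := Nat.mul_le_mul_left _ e1
      have e7 : M * ((k + r) * g (i + k)) ≤ M * (M * g (i + k + 1)) := Nat.mul_le_mul_left _ e2
      have e8 : M * (r * g i) ≤ (k + r) * ((r + 1) * g i) := by
        rw [hr]
        nlinarith [Nat.zero_le (k * g i), Nat.zero_le (r * g i)]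
      calc M * (r * g i) ≤ (k + r) * ((r + 1) * g i) := e8
        _ ≤ (k + r) * (M * g (i + k)) := e6
        _ = M * ((k + r) * g (i + k)) := by ring
        _ ≤ _ := e7
  have hbound : ∀ i, i + d < K → g i < 2 * Λ := by
    intro i hi
    by_contra hcon
    push Not at hcon
    refine hpad (x + i) (fun k => ν (i + k)) (by
      have := hνX i (by omega)
      simp only [Nat.add_zero]
      omega) fun k hk => ?_
    have e1 : x + i + k = x + ((i + k : ℕ) : ℚ) := by push_cast; ring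
    obtain ⟨e2, e3⟩ := hw (i + k) (by omega)
    obtain ⟨e4, -⟩ := hgν (i + k) (by omega)
    refine ⟨?_, ?_, ?_, ?_⟩
    · rw [e1]
      refine hXP _ (le_trans ?_ (hxX (i + k)))
      exact_mod_cast (by omega : XP ≤ X₀)
    · rw [e1]
      refine hXQ _ (le_trans ?_ (hxX (i + k)))
      exact_mod_cast (by omega : XQ ≤ X₀)
    · have e5 := hchain k i (by omega) (by omega)
      have e6 : Λ ≤ g (i + k) := by
        have hMp : 0 < M := by omega
        refine Nat.le_of_mul_le_mul_left ?_ hMp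
        refine le_trans ?_ e5
        have e7 : M ≤ 2 * (M - k) := by omega
        nlinarith
      change ν (i + k) + Λ ≤ ν (i + (k + 1))
      rw [← add_assoc, e4]
      omega
    · rw [e1]
      exact e3
  have hmono : ∀ i, i + 1 + d < K → g i ≤ g (i + 1) := by
    intro i hi
    have e1 := hstep i (by omega)
    have e2 := hbound i (by omega)
    by_contra hcon
    push Not at hcon
    have e3 : g (i + 1) + 1 ≤ g i := hcon
    have e4 : M * (g (i + 1) + 1) ≤ M * g i := Nat.mul_le_mul_left _ e3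
    have e5 : (M - 1) * g i + g i = M * g i := by
      obtain ⟨r, hr⟩ : ∃ r, M = r + 1 := ⟨M - 1, by omega⟩
      rw [hr]
      simp
      ring
    have e6 : M * (g (i + 1) + 1) = M * g (i + 1) + M := by ring
    omega
  obtain ⟨m, hm, hrun⟩ := win_run g (2 * Λ) D₀ (2 * Λ * D₀) le_rfl
    (fun i hi => hbound i (by omega)) (fun i hi => hmono i (by omega))
  have hmD : (m + 1) * D₀ ≤ 2 * Λ * D₀ := Nat.mul_le_mul_right _ (by omega)
  have hmD' : (m + 1) * D₀ = m * D₀ + D₀ := by ring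
  set i₀ := m * D₀ with hi0
  set L := g i₀ with hL
  have hLpos : 0 < L := (hgν i₀ (by omega)).2
  have hLlt : L < 2 * Λ := hbound i₀ (by omega)
  have hνrun : ∀ t, t ≤ D₀ + 1 → ν (i₀ + t) = ν i₀ + t * L := by
    intro t
    induction t with
    | zero => intro _; simp
    | succ t ih =>
      intro ht
      have e1 := ih (by omega)
      obtain ⟨e2, -⟩ := hgν (i₀ + t) (by omega)
      rw [← add_assoc, e2, e1, hrun t (by omega)]
      ring
  have hmem := hZ L hLpos (x + i₀) (ν i₀) (by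
    intro t ht
    have htD : t ≤ D₀ := by
      have : d * (L + 1) ≤ d * (2 * Λ + 1) := Nat.mul_le_mul_left _ (by omega)
      omega
    have e1 := (hw (i₀ + t) (by omega)).2
    rw [hνrun t (by omega), add_assoc, hνrun (t + 1) (by omega)] at e1
    push_cast at e1
    rw [← add_assoc] at e1
    exact e1)
  -- the denominator
  set ρ : ℚ := x + i₀ - ν i₀ / L with hρ
  have hdvd : L * ρ.den ∣ ∏ L ∈ Finset.Ico 1 (2 * Λ), (L * ∏ ρ ∈ Z L, ρ.den) :=
    (Nat.mul_dvd_mul_left L (Finset.dvd_prod_of_mem (fun ρ : ℚ => ρ.den) hmem)).trans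
      (Finset.dvd_prod_of_mem (fun L => L * ∏ ρ ∈ Z L, ρ.den)
        (Finset.mem_Ico.2 ⟨hLpos, hLlt⟩))
  obtain ⟨e, he⟩ := hdvd
  rw [he]
  have hLq : (L : ℚ) ≠ 0 := by exact_mod_cast hLpos.ne'
  have hx' : x = ρ + ν i₀ / L - i₀ := by rw [hρ]; ring
  refine ⟨e * L * ρ.num + e * ρ.den * ν i₀ - L * ρ.den * e * i₀, ?_⟩
  push_cast
  have h5 : ρ * ρ.den = ρ.num := Rat.mul_den_eq_num ρ
  rw [hx', ← h5]
  field_simp

end Pool.Agent.K9h58.SH
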