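import Pool.Agent.H43R.HDef
import Pool.Agent.K9h58.SH.Win

/-!
# Project SH: existential definitions from slowly growing hypergeometric sequences
-/

set_option autoImplicit false
set_option maxHeartbeats 1000000

namespace Pool.Agent.K9h58.SH

open Polynomial Filter Topology
open Pool.Agent.TH255.HC Pool.Agent.TH255.QI Pool.Agent.K9h58.QD Pool.Agent.H43R

variable {𝒯 : Set ℚ → Prop}

/-- eventually `a n ≠ 0` and `Q(n) a(n + 1) = P(n) a(n)` -/
def HRec (P Q : ℤ[X]) (a : ℕ → ℚ) : Prop :=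
  ∀ᶠ n : ℕ in atTop, a n ≠ 0 ∧
    ((Q.eval (n : ℤ) : ℤ) : ℚ) * a (n + 1) = ((P.eval (n : ℤ) : ℤ) : ℚ) * a n

/-- the class of the sets of values -/
def Vls (a : ℕ → ℚ) (K : ℕ) (α : ℝ) (T : Set ℚ) : Prop :=
  ∃ S : Set ℕ, Dns {n : ℕ | ∀ i, i ≤ K → n + i ∈ S} α ∧ T = a '' S

/-- the numbers recovered from windows, multiplied by `D` -/
def Hw (K N₁ X₀ D : ℕ) (a : ℕ → ℚ) (P Q : ℚ[X]) (T : Set ℚ) : Set ℚ :=
  {y | ∃ u : ℕ → ℚ, (∀ i ∈ List.range (K + 1), u i ∈ T ∧ ∀ n ∈ List.range N₁,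
      (((a n).den : ℤ) : ℚ) * u i ≠ ((a n).num : ℚ)) ∧
    (∀ i ∈ List.range K, u i ^ 2 < u (i + 1) ^ 2 ∧
      Q.eval ((1 / D : ℚ) * y + i) * u (i + 1) + (-1) * (P.eval ((1 / D : ℚ) * y + i) * u i) = 0) ∧
      (((X₀ * D : ℕ) : ℤ) : ℚ) ≤ y}

theorem dt_Hw (K N₁ X₀ D : ℕ) (a : ℕ → ℚ) (P Q : ℚ[X]) :
    DT 𝒯 (fun T v => v 0 ∈ Hw K N₁ X₀ D a P Q T) := by
  refine DT.exs (P := fun T v u =>
    (∀ i ∈ List.range (K + 1), u i ∈ T ∧ ∀ n ∈ List.range N₁,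
      (((a n).den : ℤ) : ℚ) * u i ≠ ((a n).num : ℚ)) ∧
    (∀ i ∈ List.range K, u i ^ 2 < u (i + 1) ^ 2 ∧
      Q.eval ((1 / D : ℚ) * v 0 + i) * u (i + 1) +
        (-1) * (P.eval ((1 / D : ℚ) * v 0 + i) * u i) = 0) ∧
      (((X₀ * D : ℕ) : ℤ) : ℚ) ≤ v 0) ?_
  refine DT.and ?_ (DT.and ?_ ?_)
  · exact DT.list _ fun i => (DT.mem (PF.od i)).and
      (DT.list _ fun n => DT.ne ((PF.int ((a n).den : ℤ)).mul (PF.od i)) (PF.int (a n).num))
  · refine DT.list _ fun i => (dt_lt ((PF.od i).pow 2) ((PF.od (i + 1)).pow 2)).and (QF.dt ?_)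
    have hx : QF (fun w : ℕ → ℚ => (1 / D : ℚ) * w (2 * 0) + (i : ℚ)) :=
      ((QF.const (1 / D : ℚ)).mul (QF.of_pf (PF.var (2 * 0)))).add (QF.const i)
    exact ((QF.poly Q hx).mul (QF.of_pf (PF.od (i + 1)))).add
      ((QF.const (-1)).mul ((QF.poly P hx).mul (QF.of_pf (PF.od i))))
  · exact DT.le (PF.int ((X₀ * D : ℕ) : ℤ)) (PF.var (2 * 0))

lemma banach_scale {S' : Set ℕ} {α : ℝ} {n₁ D : ℕ} (hD : 0 < D) {X : Set ℚ} (hα : 0 < α)
    (hS : Dns S' α) (hX : ∀ n, n₁ ≤ n → n ∈ S' → (D : ℚ) * n ∈ X) :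
    Banach (MvPolynomial.X 0 : MvPolynomial (Fin 1) ℤ) (α / (2 * D)) X := by
  intro l₀
  obtain ⟨l, s, hl, hls⟩ := hS (max l₀ (⌈2 * n₁ / α⌉₊))
  have hDl : l₀ ≤ D * l := ((le_max_left _ _).trans hl).trans (Nat.le_mul_of_pos_left _ hD)
  refine ⟨D * l, (D : ℤ) * s, hDl, ?_⟩
  set W : Set ℕ := {n : ℕ | s ≤ n ∧ n < s + l ∧ n ∈ S'} with hW
  set R : Set ℤ := {m' : ℤ | (D : ℤ) * s ≤ m' ∧ m' < (D : ℤ) * s + ((D * l : ℕ) : ℤ) ∧
    ∃ t : Fin 1 → ℚ, (∀ i, t i ∈ X) ∧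
    MvPolynomial.aeval t (MvPolynomial.X 0 : MvPolynomial (Fin 1) ℤ) = (m' : ℚ)} with hR
  have hRf : R.Finite :=
    (Set.finite_Ico ((D : ℤ) * s) ((D : ℤ) * s + ((D * l : ℕ) : ℤ))).subset
      fun m hm => ⟨hm.1, hm.2.1⟩
  have hWf : W.Finite := (Set.finite_Ico s (s + l)).subset fun m hm => ⟨hm.1, hm.2.1⟩
  have hDZ : (0 : ℤ) < D := by exact_mod_cast hD
  have hinj : Function.Injective (fun n : ℕ => (D : ℤ) * n) := by
    intro m n h
    have h' : (D : ℤ) * m = (D : ℤ) * n := h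
    exact_mod_cast mul_left_cancel₀ hDZ.ne' h'
  have h7 : (fun n : ℕ => (D : ℤ) * n) '' (W \ Set.Iio n₁) ⊆ R := by
    rintro _ ⟨n, ⟨⟨hn1, hn2, hn5⟩, hn3⟩, rfl⟩
    have hn3' : n₁ ≤ n := not_lt.1 hn3
    have hn1' : (s : ℤ) ≤ (n : ℤ) := by exact_mod_cast hn1
    have hn2' : (n : ℤ) < (s : ℤ) + l := by exact_mod_cast hn2
    refine ⟨?_, ?_, fun _ => (D : ℚ) * n, fun _ => hX n hn3' hn5, ?_⟩
    · exact mul_le_mul_of_nonneg_left hn1' hDZ.le
    · change (D : ℤ) * n < _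
      push_cast
      rw [← mul_add]
      exact mul_lt_mul_of_pos_left hn2' hDZ
    · rw [MvPolynomial.aeval_X]
      push_cast
      rfl
  have h8 : (W \ Set.Iio n₁).ncard ≤ R.ncard := by
    rw [← Set.ncard_image_of_injective _ hinj]
    exact Set.ncard_le_ncard h7 hRf
  have h9 : W.ncard ≤ (W \ Set.Iio n₁).ncard + n₁ := by
    have e1 : W ⊆ (W \ Set.Iio n₁) ∪ Set.Iio n₁ := by
      intro n hn
      by_cases h : n < n₁
      · exact Or.inr h
      · exact Or.inl ⟨hn, h⟩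
    have e2 : (Set.Iio n₁).Finite := Set.finite_Iio n₁
    refine (Set.ncard_le_ncard e1 ((hWf.subset Set.sdiff_subset).union e2)).trans
      ((Set.ncard_union_le _ _).trans ?_)
    rw [← Finset.coe_Iio n₁, Set.ncard_coe_finset, Nat.card_Iio]
  have h10 : (W.ncard : ℝ) ≤ R.ncard + n₁ := by
    exact_mod_cast h9.trans (Nat.add_le_add_right h8 n₁)
  have h11 : (n₁ : ℝ) ≤ α / 2 * l := by
    have e1 : 2 * n₁ / α ≤ (l : ℝ) := (Nat.le_ceil _).trans
      (by exact_mod_cast (le_max_right _ _).trans hl)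
    rw [div_le_iff₀ hα] at e1
    linarith
  have hDR : (0 : ℝ) < D := by exact_mod_cast hD
  have h12 : α / (2 * D) * ((D * l : ℕ) : ℝ) = α / 2 * l := by
    push_cast
    field_simp
  rw [h12]
  linarith

/-- `a n / a m` is the product of the quotients -/
lemma prod_rec {P Q : ℤ[X]} {a : ℕ → ℚ} {N₁ : ℕ}
    (hrec : ∀ j, N₁ ≤ j → ev Q (j : ℚ) * a (j + 1) = ev P (j : ℚ) * a j) {m n : ℕ}
    (hm : N₁ ≤ m) (hmn : m ≤ n) :
    a n * ∏ j ∈ Finset.Ico m n, ev Q (j : ℚ) = a m * ∏ j ∈ Finset.Ico m n, ev P (j : ℚ) := by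
  induction n, hmn using Nat.le_induction with
  | base => simp
  | succ n hn ih =>
    rw [Finset.prod_Ico_succ_top hn, Finset.prod_Ico_succ_top hn]
    have e1 := hrec n (hm.trans hn)
    calc a (n + 1) * ((∏ j ∈ Finset.Ico m n, ev Q (j : ℚ)) * ev Q (n : ℚ))
        = (ev Q (n : ℚ) * a (n + 1)) * ∏ j ∈ Finset.Ico m n, ev Q (j : ℚ) := by ring
      _ = ev P (n : ℚ) * (a n * ∏ j ∈ Finset.Ico m n, ev Q (j : ℚ)) := by rw [e1]; ring
      _ = _ := by rw [ih]; ring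

/-- the case `|P(n)| > |Q(n)|` -/
theorem dt_slow_gt (hW : S_WIN) {P Q : ℤ[X]} (hP : P ≠ 0) (hQ : Q ≠ 0)
    (hd : P.natDegree = Q.natDegree) (hl : |P.leadingCoeff| = |Q.leadingCoeff|)
    (hlt : ∃ N : ℕ, ∀ n : ℕ, N ≤ n → |Q.eval (n : ℤ)| < |P.eval (n : ℤ)|) {p : ℕ} (hp : p.Prime)
    (hval : (∃ N : ℕ, (∀ n : ℕ, N ≤ n →
          padicValInt p (P.eval (n : ℤ)) ≤ padicValInt p (Q.eval (n : ℤ))) ∧
        ∀ N' : ℕ, ∃ n, N' ≤ n ∧
          padicValInt p (P.eval (n : ℤ)) < padicValInt p (Q.eval (n : ℤ))) ∨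
      (∃ N : ℕ, (∀ n : ℕ, N ≤ n →
          padicValInt p (Q.eval (n : ℤ)) ≤ padicValInt p (P.eval (n : ℤ))) ∧
        ∀ N' : ℕ, ∃ n, N' ≤ n ∧
          padicValInt p (Q.eval (n : ℤ)) < padicValInt p (P.eval (n : ℤ))))
    {a : ℕ → ℚ} (ha : HRec P Q a) :
    ∃ K : ℕ, ∀ {α : ℝ}, 0 < α → ∀ {P' : (ℕ → ℚ) → Prop},
      (∀ A δ : ℝ, δ < 1 / 2 → DT (Qu A δ) (fun _ v => P' v)) →
      DT (Vls a K α) (fun _ v => P' v) := by
  obtain ⟨K, X₀, D, hD, hwin⟩ := hW P Q hP hQ hd hl hlt p hp hval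
  obtain ⟨N₂, hN₂⟩ := hlt
  obtain ⟨N₃, hN₃⟩ := eventually_atTop.1 ha
  set N₁ := max X₀ (max N₂ N₃) with hN1
  have hrec : ∀ j, N₁ ≤ j → a j ≠ 0 ∧ ev Q (j : ℚ) * a (j + 1) = ev P (j : ℚ) * a j := by
    intro j hj
    rw [win_ev_nat, win_ev_nat]
    exact hN₃ j (by omega)
  have hgrow : ∀ j, N₁ ≤ j → |a j| < |a (j + 1)| := by
    intro j hj
    obtain ⟨e1, e2⟩ := hrec j hj
    have e3 : |ev Q (j : ℚ)| < |ev P (j : ℚ)| := by
      rw [win_ev_nat, win_ev_nat]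
      exact_mod_cast hN₂ j (by omega)
    have e4 := congrArg abs e2
    rw [abs_mul, abs_mul] at e4
    have e5 : 0 < |a j| := abs_pos.2 e1
    by_contra hcon
    push Not at hcon
    have e6 : |ev Q (j : ℚ)| * |a (j + 1)| ≤ |ev Q (j : ℚ)| * |a j| :=
      mul_le_mul_of_nonneg_left hcon (abs_nonneg _)
    have e7 := mul_lt_mul_of_pos_right e3 e5
    linarith
  have hmono : ∀ j k, N₁ ≤ j → j ≤ k → |a j| ≤ |a k| := by
    intro j k hj hjk
    induction k, hjk using Nat.le_induction with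
    | base => exact le_rfl
    | succ k hk ih => exact ih.trans (hgrow k (hj.trans hk)).le
  have hstrict : ∀ j k, N₁ ≤ j → j < k → |a j| < |a k| := by
    intro j k hj hjk
    exact lt_of_lt_of_le (hgrow j hj) (hmono (j + 1) k (by omega) hjk)
  -- the values of the first terms occur only finitely often
  have hex : ∀ k : ℕ, ∃ n₀ : ℕ, ∀ n, n₀ ≤ n → a n ≠ a k := by
    intro k
    by_cases h : ∃ n', N₁ ≤ n' ∧ a n' = a k
    · obtain ⟨n', h1, h2⟩ := h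
      refine ⟨n' + 1, fun n hn h3 => ?_⟩
      have := hstrict n' n h1 (by omega)
      rw [h3, h2] at this
      exact lt_irrefl _ this
    · push Not at h
      exact ⟨N₁, fun n hn => h n hn⟩
  choose κ hκ using hex
  obtain ⟨n₁, hn₁⟩ : ∃ n₁ : ℕ, ∀ k, k < N₁ → κ k ≤ n₁ :=
    ⟨∑ k ∈ Finset.range N₁, κ k, fun k hk => Finset.single_le_sum (f := κ)
      (fun _ _ => Nat.zero_le _) (Finset.mem_range.2 hk)⟩
  refine ⟨K, fun {α} hα {P'} hP' => ?_⟩
  refine dt_sub (Φ := Hw K N₁ X₀ D a (P.map (Int.castRingHom ℚ)) (Q.map (Int.castRingHom ℚ)))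
    (𝒯' := fun T => (∀ x ∈ T, ∃ z : ℤ, x = z) ∧
    Banach (MvPolynomial.X 0 : MvPolynomial (Fin 1) ℤ) (α / (2 * D)) T) ?_
    (dt_Hw K N₁ X₀ D a _ _)
    (dt_banach _ (by
      have : (0 : ℝ) < D := by exact_mod_cast hD
      positivity) hP')
  have hDq : (0 : ℚ) < D := by exact_mod_cast hD
  rintro T ⟨S, hS, rfl⟩
  refine ⟨?_, ?_⟩
  · rintro y ⟨u, hu1, hu2, hy⟩
    have hex : ∀ i, ∃ n, i ≤ K → a n = u i := by
      intro i
      by_cases hi : i ≤ K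
      · obtain ⟨⟨n, -, hn⟩, -⟩ := hu1 i (List.mem_range.2 (by omega))
        exact ⟨n, fun _ => hn⟩
      · exact ⟨0, fun h => absurd h hi⟩
    choose ν hν using hex
    have hνN : ∀ i, i ≤ K → N₁ ≤ ν i := by
      intro i hi
      by_contra hcon
      push Not at hcon
      obtain ⟨-, h2⟩ := hu1 i (List.mem_range.2 (by omega))
      apply h2 (ν i) (List.mem_range.2 hcon)
      rw [← hν i hi, mul_comm]
      exact_mod_cast Rat.mul_den_eq_num (a (ν i))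
    obtain ⟨z, hz⟩ := hwin ((1 / D : ℚ) * y) ν (by
        rw [one_div, ← div_eq_inv_mul, le_div_iff₀ hDq]
        push_cast at hy
        exact hy) (by
        have := hνN 0 (Nat.zero_le _)
        omega) (fun i hi => by
        obtain ⟨e1, e2⟩ := hu2 i (List.mem_range.2 hi)
        rw [← hν i hi.le, ← hν (i + 1) hi] at e1 e2
        rw [sq_lt_sq] at e1
        have hlt' : ν i < ν (i + 1) := by
          by_contra hcon
          push Not at hcon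
          have := hmono _ _ (hνN (i + 1) hi) hcon
          linarith
        refine ⟨hlt', ?_⟩
        have e3 := prod_rec (fun j hj => (hrec j hj).2) (hνN i hi.le) hlt'.le
        have e4 := (hrec (ν i) (hνN i hi.le)).1
        have e5 : ev Q ((1 / D : ℚ) * y + i) * a (ν (i + 1)) =
            ev P ((1 / D : ℚ) * y + i) * a (ν i) := by
          unfold ev
          linarith
        unfold Blk
        refine mul_left_cancel₀ e4 ?_
        calc a (ν i) * (ev P ((1 / D : ℚ) * y + i) * ∏ j ∈ Finset.Ico (ν i) (ν (i + 1)), ev Q (j : ℚ))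
            = (ev P ((1 / D : ℚ) * y + i) * a (ν i)) *
              ∏ j ∈ Finset.Ico (ν i) (ν (i + 1)), ev Q (j : ℚ) := by ring
          _ = ev Q ((1 / D : ℚ) * y + i) * (a (ν (i + 1)) *
              ∏ j ∈ Finset.Ico (ν i) (ν (i + 1)), ev Q (j : ℚ)) := by rw [← e5]; ring
          _ = _ := by rw [e3]; ring)
    refine ⟨z, ?_⟩
    rw [← hz]
    field_simp
  · refine banach_scale (n₁ := max n₁ N₁) hD hα hS fun n hn hw => ?_
    have hn1 : n₁ ≤ n := (le_max_left _ _).trans hn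
    have hn2 : N₁ ≤ n := (le_max_right _ _).trans hn
    have hDn : (1 / D : ℚ) * (D * n) = n := by field_simp
    refine ⟨fun i => a (n + i), fun i hi => ⟨⟨n + i, hw i ?_, rfl⟩, fun k hk => ?_⟩,
      fun i hi => ⟨?_, ?_⟩, ?_⟩
    · have := List.mem_range.1 hi
      omega
    · intro h
      rw [List.mem_range] at hk
      apply hκ k (n + i) (by have := hn₁ k hk; omega)
      have h1 : (((a k).den : ℤ) : ℚ) * a k = ((a k).num : ℚ) := by
        rw [mul_comm]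
        exact_mod_cast Rat.mul_den_eq_num (a k)
      rw [← h1] at h
      refine mul_left_cancel₀ ?_ h
      exact_mod_cast (a k).den_nz
    · rw [sq_lt_sq]
      exact hgrow (n + i) (by omega)
    · have e1 := (hrec (n + i) (by omega)).2
      rw [hDn]
      unfold ev at e1
      push_cast at e1
      change (Q.map (Int.castRingHom ℚ)).eval ((n : ℚ) + i) * a (n + (i + 1)) +
        -1 * ((P.map (Int.castRingHom ℚ)).eval ((n : ℚ) + i) * a (n + i)) = 0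
      rw [← add_assoc, e1]
      ring
    · have e1 : (X₀ : ℚ) ≤ n := by exact_mod_cast (by omega : X₀ ≤ n)
      push_cast
      nlinarith

/-- inverses -/
theorem dt_inv' {a : ℕ → ℚ} {K : ℕ} {α : ℝ} {P' : (ℕ → ℚ) → Prop}
    (h : DT (Vls (fun n => (a n)⁻¹) K α) (fun _ v => P' v)) :
    DT (Vls a K α) (fun _ v => P' v) := by
  refine dt_sub (Φ := fun T => {y | ∃ t ∈ T, t * y ^ 2 = y ∧ y * t ^ 2 = t}) ?_ ?_ h
  · rintro T ⟨S, hS, rfl⟩
    refine ⟨S, hS, ?_⟩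
    ext y
    constructor
    · rintro ⟨t, ⟨n, hn, rfl⟩, h1, h2⟩
      refine ⟨n, hn, ?_⟩
      change (a n)⁻¹ = y
      by_cases h0 : a n = 0
      · rw [h0] at h1 ⊢
        simpa using h1
      · have h3 : y * a n = 1 := by
          have : (y * a n - 1) * a n = 0 := by linarith
          have := (mul_eq_zero.1 this).resolve_right h0
          linarith
        exact (eq_inv_of_mul_eq_one_left h3).symm
    · rintro ⟨n, hn, rfl⟩
      refine ⟨a n, ⟨n, hn, rfl⟩, ?_, ?_⟩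
      · by_cases h0 : a n = 0
        · simp [h0]
        · field_simp
      · by_cases h0 : a n = 0
        · simp [h0]
        · field_simp
  · have h1 : DT (Vls a K α) (fun T v => ∃ u : ℕ → ℚ, u 0 ∈ T ∧ u 0 * v 0 ^ 2 = v 0 ∧
        v 0 * u 0 ^ 2 = u 0) :=
      DT.exs ((DT.mem (PF.od 0)).and ((DT.eq ((PF.od 0).mul ((PF.var (2 * 0)).pow 2))
        (PF.var (2 * 0))).and (DT.eq ((PF.var (2 * 0)).mul ((PF.od 0).pow 2)) (PF.od 0))))
    refine h1.congr fun T _ v => ?_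
    constructor
    · rintro ⟨t, ht, h1, h2⟩
      exact ⟨fun _ => t, ht, h1, h2⟩
    · rintro ⟨u, hu, h1, h2⟩
      exact ⟨u 0, hu, h1, h2⟩

lemma HRec.inv {P Q : ℤ[X]} {a : ℕ → ℚ} (h : HRec P Q a) :
    HRec Q P (fun n => (a n)⁻¹) := by
  obtain ⟨N, hN⟩ := eventually_atTop.1 h
  refine eventually_atTop.2 ⟨N, fun n hn => ?_⟩
  obtain ⟨h1, h2⟩ := hN n hn
  obtain ⟨h3, -⟩ := hN (n + 1) (by omega)
  refine ⟨inv_ne_zero h1, ?_⟩
  dsimp only
  rw [← div_eq_mul_inv, ← div_eq_mul_inv, div_eq_div_iff h3 h1]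
  linarith

end Pool.Agent.K9h58.SH
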