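import Pool.Agent.K9h58.SH.Stm2

/-!
# Leaf LAG: integers at which a polynomial is divisible by a high power of `p`
-/

set_option autoImplicit false

open Polynomial

namespace Pool.Agent.K9h58.SH

theorem lag_aux (F : ℤ[X]) (d : ℕ) (hd : F.natDegree = d) (p : ℕ) (hp : p.Prime) (hF : F ≠ 0)
    (x : ℚ) (z : Fin (d + 1) → ℤ) (W h : ℕ) (hz : Function.Injective z)
    (hW : ∀ l m, |z l - z m| ≤ W)
    (hv : ∀ l, ev F (x + z l) = 0 ∨ (h : ℤ) ≤ padicValRat p (ev F (x + z l))) :
    p ^ h ≤ F.leadingCoeff.natAbs * W ^ d := by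
  classical
  have := Fact.mk hp
  set f : ℚ[X] := F.map (Int.castRingHom ℚ) with hf
  have hfd : f.natDegree = d :=
    (natDegree_map_eq_of_injective (RingHom.injective_int _) F).trans hd
  have hf0 : f ≠ 0 := by
    rw [hf, Ne, Polynomial.map_eq_zero_iff (RingHom.injective_int _)]
    exact hF
  have hlc : f.leadingCoeff = ((F.leadingCoeff : ℤ) : ℚ) := by
    rw [hf, leadingCoeff_map_of_injective (RingHom.injective_int _)]
    rfl
  have hinj : Set.InjOn (fun l => x + (z l : ℚ)) ((Finset.univ : Finset (Fin (d + 1))) : Set _) := by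
    intro a _ b _ hab
    apply hz
    have h1 : (z a : ℚ) = z b := add_left_cancel hab
    exact_mod_cast h1
  have hdeg : ((Finset.univ : Finset (Fin (d + 1))).card : WithBot ℕ) = f.degree + 1 := by
    rw [Finset.card_univ, Fintype.card_fin, degree_eq_natDegree hf0, hfd]
    rfl
  have hsum := Lagrange.leadingCoeff_eq_sum hinj hdeg
  -- the products of differences
  have hD : ∀ l, ∏ j ∈ Finset.univ.erase l, ((x + (z l : ℚ)) - (x + (z j : ℚ))) =
      ((∏ j ∈ Finset.univ.erase l, (z l - z j) : ℤ) : ℚ) := by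
    intro l
    rw [Int.cast_prod]
    refine Finset.prod_congr rfl fun j _ => ?_
    push_cast
    ring
  have hD0 : ∀ l, ∏ j ∈ Finset.univ.erase l, (z l - z j) ≠ 0 := by
    intro l
    rw [Finset.prod_ne_zero_iff]
    intro j hj
    rw [Finset.mem_erase] at hj
    exact sub_ne_zero.2 fun h1 => hj.1 (hz h1).symm
  have hlc0 : ((F.leadingCoeff : ℤ) : ℚ) ≠ 0 := by
    exact_mod_cast leadingCoeff_ne_zero.2 hF
  obtain ⟨l, hl⟩ : ∃ l, padicNorm p ((F.leadingCoeff : ℤ) : ℚ) ≤
      padicNorm p (f.eval (x + (z l : ℚ)) /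
        ((∏ j ∈ Finset.univ.erase l, (z l - z j) : ℤ) : ℚ)) := by
    by_contra hcon
    push Not at hcon
    have h1 : padicNorm p (∑ l : Fin (d + 1), f.eval (x + (z l : ℚ)) /
        ((∏ j ∈ Finset.univ.erase l, (z l - z j) : ℤ) : ℚ)) <
        padicNorm p ((F.leadingCoeff : ℤ) : ℚ) :=
      padicNorm.sum_lt Finset.univ_nonempty fun l _ => hcon l
    rw [← hlc, hsum] at h1
    simp only [hD] at h1
    exact lt_irrefl _ h1
  have hFv : padicNorm p (f.eval (x + (z l : ℚ))) ≤ (p : ℚ) ^ (-(h : ℤ)) := by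
    rcases hv l with h0 | h0
    · change padicNorm p (ev F (x + z l)) ≤ _
      rw [h0, padicNorm.zero]
      have : (0 : ℚ) < p := by exact_mod_cast hp.pos
      positivity
    · by_cases h00 : ev F (x + z l) = 0
      · change padicNorm p (ev F (x + z l)) ≤ _
        rw [h00, padicNorm.zero]
        have : (0 : ℚ) < p := by exact_mod_cast hp.pos
        positivity
      · change padicNorm p (ev F (x + z l)) ≤ _
        rw [padicNorm.eq_zpow_of_nonzero h00]
        have h1 : (1 : ℚ) ≤ p := by exact_mod_cast hp.one_lt.le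
        exact zpow_le_zpow_right₀ h1 (neg_le_neg h0)
  have hnorm : padicNorm p ((F.leadingCoeff * ∏ j ∈ Finset.univ.erase l, (z l - z j) : ℤ) : ℚ) ≤
      (p : ℚ) ^ (-(h : ℤ)) := by
    rw [Int.cast_mul, padicNorm.mul]
    rw [padicNorm.div] at hl
    have h2 : (0 : ℚ) < padicNorm p ((∏ j ∈ Finset.univ.erase l, (z l - z j) : ℤ) : ℚ) := by
      refine lt_of_le_of_ne (padicNorm.nonneg _) (Ne.symm ?_)
      exact padicNorm.nonzero (by exact_mod_cast hD0 l)
    rw [le_div_iff₀ h2] at hl
    exact hl.trans hFv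
  have hdvd := padicNorm.dvd_iff_norm_le.2 hnorm
  have hne : F.leadingCoeff * ∏ j ∈ Finset.univ.erase l, (z l - z j) ≠ 0 :=
    mul_ne_zero (leadingCoeff_ne_zero.2 hF) (hD0 l)
  have h5 : p ^ h ∣ (F.leadingCoeff * ∏ j ∈ Finset.univ.erase l, (z l - z j)).natAbs := by
    have := Int.natAbs_dvd_natAbs.2 hdvd
    simpa using this
  have h6 := Nat.le_of_dvd (Int.natAbs_pos.2 hne) h5
  refine h6.trans ?_
  rw [Int.natAbs_mul]
  refine Nat.mul_le_mul_left _ ?_
  have h7 : (∏ j ∈ Finset.univ.erase l, (z l - z j)).natAbs =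
      ∏ j ∈ Finset.univ.erase l, (z l - z j).natAbs := map_prod Int.natAbsHom _ _
  rw [h7]
  calc ∏ j ∈ Finset.univ.erase l, (z l - z j).natAbs
      ≤ ∏ _j ∈ (Finset.univ : Finset (Fin (d + 1))).erase l, W := by
        refine Finset.prod_le_prod' fun j _ => ?_
        have h8 := hW l j
        rw [Int.abs_eq_natAbs] at h8
        exact_mod_cast h8
    _ = W ^ d := by
        rw [Finset.prod_const, Finset.card_erase_of_mem (Finset.mem_univ l), Finset.card_univ,
          Fintype.card_fin, Nat.add_sub_cancel]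

theorem lag : S_LAG := fun F p hp hF x z W h hz hW hv =>
  lag_aux F F.natDegree rfl p hp hF x z W h hz hW hv

end Pool.Agent.K9h58.SH
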