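import Pool.Agent.K9h58.SH.Stm

/-!
# Leaf LINE: a long run of gaps `L` determines `x` up to finitely many possibilities
-/

set_option autoImplicit false

open Polynomial

namespace Pool.Agent.K9h58.SH

namespace LINE

/-- beyond all the roots -/
theorem exists_y (q : ℚ[X]) (hq : q ≠ 0) : ∃ y : ℕ, ∀ j : ℕ, q.eval ((y : ℚ) + j) ≠ 0 := by
  classical
  obtain ⟨B, hB⟩ : ∃ B : ℚ, ∀ r ∈ q.roots.toFinset, r ≤ B := by
    obtain ⟨B, hB⟩ := q.roots.toFinset.exists_le
    exact ⟨B, hB⟩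
  obtain ⟨y, hy⟩ := exists_nat_gt B
  refine ⟨y, fun j h0 => ?_⟩
  have h1 : ((y : ℚ) + j) ∈ q.roots.toFinset := by
    rw [Multiset.mem_toFinset, mem_roots hq]
    exact h0
  have h2 := hB _ h1
  have h3 : (0 : ℚ) ≤ j := Nat.cast_nonneg j
  linarith

/-- a block of length `L` as a product over `range L` -/
theorem prod_block (F : ℚ → ℚ) (m L : ℕ) :
    ∏ j ∈ Finset.Ico m (m + L), F (j : ℚ) = ∏ j ∈ Finset.range L, F ((m : ℚ) + j) := by
  rw [Finset.prod_Ico_eq_prod_range, Nat.add_sub_cancel_left]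
  refine Finset.prod_congr rfl fun j _ => ?_
  push_cast
  rfl

/-- the polynomial in `t` -/
noncomputable def GG (p q : ℚ[X]) (x : ℚ) (n L : ℕ) : ℚ[X] :=
  p.comp (X + C x) * ∏ j ∈ Finset.range L, q.comp (C (L : ℚ) * X + C ((n : ℚ) + j)) -
    q.comp (X + C x) * ∏ j ∈ Finset.range L, p.comp (C (L : ℚ) * X + C ((n : ℚ) + j))

theorem GG_eval (p q : ℚ[X]) (x : ℚ) (n L : ℕ) (t : ℚ) :
    (GG p q x n L).eval t = p.eval (t + x) * ∏ j ∈ Finset.range L, q.eval (L * t + (n + j)) -
      q.eval (t + x) * ∏ j ∈ Finset.range L, p.eval (L * t + (n + j)) := by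
  unfold GG
  rw [eval_sub, eval_mul, eval_mul, eval_prod, eval_prod]
  simp only [eval_comp, eval_add, eval_mul, eval_X, eval_C]

theorem deg_comp1 (p : ℚ[X]) (d : ℕ) (hp : p.natDegree ≤ d) (a b : ℚ) :
    (p.comp (C a * X + C b)).natDegree ≤ d := by
  refine natDegree_comp_le.trans ?_
  calc p.natDegree * (C a * X + C b).natDegree ≤ d * 1 :=
        Nat.mul_le_mul hp (natDegree_linear_le)
    _ = d := mul_one d

theorem deg_comp2 (p : ℚ[X]) (d : ℕ) (hp : p.natDegree ≤ d) (b : ℚ) :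
    (p.comp (X + C b)).natDegree ≤ d := by
  have h := deg_comp1 p d hp 1 b
  rwa [C_1, one_mul] at h

theorem deg_term (p q : ℚ[X]) (d : ℕ) (hp : p.natDegree ≤ d) (hq : q.natDegree ≤ d) (x : ℚ)
    (n L : ℕ) : (p.comp (X + C x) *
      ∏ j ∈ Finset.range L, q.comp (C (L : ℚ) * X + C ((n : ℚ) + j))).natDegree ≤ d * (L + 1) := by
  refine natDegree_mul_le.trans ?_
  have h1 : (∏ j ∈ Finset.range L, q.comp (C (L : ℚ) * X + C ((n : ℚ) + j))).natDegree ≤ L * d := by
    refine (natDegree_prod_le _ _).trans ?_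
    calc ∑ j ∈ Finset.range L, (q.comp (C (L : ℚ) * X + C ((n : ℚ) + j))).natDegree
        ≤ ∑ j ∈ Finset.range L, d := Finset.sum_le_sum fun j _ => deg_comp1 q d hq _ _
      _ = L * d := by rw [Finset.sum_const, Finset.card_range, smul_eq_mul]
  have h2 := deg_comp2 p d hp x
  calc _ ≤ d + L * d := add_le_add h2 h1
    _ = d * (L + 1) := by ring

theorem GG_deg (p q : ℚ[X]) (d : ℕ) (hp : p.natDegree ≤ d) (hq : q.natDegree ≤ d) (x : ℚ)
    (n L : ℕ) : (GG p q x n L).natDegree ≤ d * (L + 1) := by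
  unfold GG
  refine (natDegree_sub_le _ _).trans ?_
  exact max_le (deg_term p q d hp hq x n L) (deg_term q p d hq hp x n L)

end LINE

open LINE in
theorem line : S_LINE := by
  classical
  intro P Q d hQ0 hPd hQd hne L hL
  set p : ℚ[X] := P.map (Int.castRingHom ℚ) with hp
  set q : ℚ[X] := Q.map (Int.castRingHom ℚ) with hq
  have hpd : p.natDegree ≤ d := natDegree_map_le.trans hPd
  have hqd : q.natDegree ≤ d := natDegree_map_le.trans hQd
  have hq0 : q ≠ 0 := by
    rw [hq, Ne, Polynomial.map_eq_zero_iff (RingHom.injective_int _)]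
    exact hQ0
  have hL0 : (L : ℚ) ≠ 0 := by exact_mod_cast hL.ne'
  obtain ⟨y, hy⟩ := exists_y q hq0
  set a : ℚ := ∏ j ∈ Finset.range L, q.eval ((y : ℚ) + j) with ha
  set b : ℚ := ∏ j ∈ Finset.range L, p.eval ((y : ℚ) + j) with hb
  have ha0 : a ≠ 0 := Finset.prod_ne_zero_iff.2 fun j _ => hy j
  set H : ℚ[X] := p * C a - q * C b with hH
  have hH0 : H ≠ 0 := by
    intro h0
    apply hne (b / a)
    have h1 : p * C a = q * C b := sub_eq_zero.1 h0
    calc p = p * C a * C a⁻¹ := by rw [mul_assoc, ← C_mul, mul_inv_cancel₀ ha0, C_1, mul_one]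
      _ = C (b / a) * q := by rw [h1, div_eq_mul_inv, C_mul]; ring
  refine ⟨H.roots.toFinset.image fun z => z - y / L, fun x n hblk => ?_⟩
  have hG : GG p q x n L = 0 := by
    refine eq_zero_of_natDegree_lt_card_of_eval_eq_zero' (GG p q x n L)
      ((Finset.range (d * (L + 1) + 1)).image fun t : ℕ => (t : ℚ)) ?_ ?_
    · intro z hz
      obtain ⟨t, ht, rfl⟩ := Finset.mem_image.1 hz
      have h1 := hblk t (Nat.lt_succ_iff.1 (Finset.mem_range.1 ht))
      unfold Blk at h1
      have e1 : n + (t + 1) * L = (n + t * L) + L := by ring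
      rw [e1, prod_block (ev Q), prod_block (ev P)] at h1
      rw [GG_eval, sub_eq_zero]
      have e2 : ∀ j : ℕ, (L : ℚ) * t + (n + j) = ((n + t * L : ℕ) : ℚ) + j := by
        intro j
        push_cast
        ring
      simp only [e2]
      rw [add_comm (t : ℚ) x]
      exact h1
    · rw [Finset.card_image_of_injective _ Nat.cast_injective, Finset.card_range]
      exact Nat.lt_succ_of_le (GG_deg p q d hpd hqd x n L)
  have h2 := GG_eval p q x n L (((y : ℚ) - n) / L)
  rw [hG, eval_zero] at h2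
  have e3 : ∀ j : ℕ, (L : ℚ) * (((y : ℚ) - n) / L) + (n + j) = (y : ℚ) + j := by
    intro j
    field_simp
    ring
  simp only [e3] at h2
  rw [← ha, ← hb] at h2
  rw [Finset.mem_image]
  refine ⟨((y : ℚ) - n) / L + x, ?_, ?_⟩
  · rw [Multiset.mem_toFinset, mem_roots hH0, IsRoot.def, hH, eval_sub, eval_mul, eval_mul,
      eval_C, eval_C]
    exact h2.symm
  · field_simp
    ring

end Pool.Agent.K9h58.SH
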