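import Pool.Agent.K9h58.SH.Stm

/-!
# Project SH, leaf PADIC
-/

set_option autoImplicit false

open Polynomial

namespace Pool.Agent.K9h58.SH

theorem padic_ev (P : ℤ[X]) (j : ℕ) : ev P (j : ℚ) = ((P.eval (j : ℤ) : ℤ) : ℚ) := by
  rw [ev]; exact eval_natCast_map (Int.castRingHom ℚ) P j

theorem padic_norm (p : ℕ) [Fact p.Prime] (z : ℤ) (hz : z ≠ 0) :
    padicNorm p (z : ℚ) = (p : ℚ) ^ (-(padicValInt p z : ℤ)) := by
  rw [padicNorm.eq_zpow_of_nonzero (Int.cast_ne_zero.2 hz), padicValRat.of_int]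

theorem padic_step (p : ℕ) [Fact p.Prime] (z w : ℤ) (hz : z ≠ 0) (hw : w ≠ 0) (k : ℕ)
    (h : padicValInt p z + k ≤ padicValInt p w) :
    padicNorm p (w : ℚ) ≤ ((p : ℚ)⁻¹) ^ k * padicNorm p (z : ℚ) := by
  have hp : (1 : ℚ) < p := by exact_mod_cast (Fact.out : p.Prime).one_lt
  have hp0 : (p : ℚ) ≠ 0 := by positivity
  rw [padic_norm p z hz, padic_norm p w hw]
  have e : ((p : ℚ)⁻¹) ^ k * (p : ℚ) ^ (-(padicValInt p z : ℤ)) =
      (p : ℚ) ^ (-(k : ℤ) + -(padicValInt p z : ℤ)) := by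
    rw [zpow_add₀ hp0, zpow_neg, zpow_natCast, zpow_neg, zpow_natCast, inv_pow]
  rw [e]
  refine zpow_le_zpow_right₀ hp.le ?_
  omega

/-- one block of `q` indices -/
theorem padic_block (a b : ℕ → ℚ) (p : ℚ) (N₀ q n₁ : ℕ) (hq : 0 < q)
    (ha : ∀ j, N₀ ≤ j → 0 < a j) (hb : ∀ j, 0 ≤ b j) (hab : ∀ j, N₀ ≤ j → b j ≤ a j)
    (hp : 0 ≤ p) (hs : ∀ j, N₀ ≤ j → j ≡ n₁ [MOD q] → b j ≤ p * a j) (m : ℕ) (hm : N₀ ≤ m) :
    ∏ j ∈ Finset.Ico m (m + q), b j ≤ p * ∏ j ∈ Finset.Ico m (m + q), a j := by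
  set r := (n₁ + (q - 1) * m) % q with hr
  have hrq : r < q := Nat.mod_lt _ hq
  have hmod : m + r ≡ n₁ [MOD q] := by
    have h1 : m + r ≡ m + (n₁ + (q - 1) * m) [MOD q] := Nat.ModEq.add_left m (Nat.mod_modEq _ _)
    have h2 : m + (n₁ + (q - 1) * m) = n₁ + q * m := by
      obtain ⟨c, rfl⟩ : ∃ c, q = c + 1 := ⟨q - 1, by omega⟩
      simp only [Nat.add_sub_cancel]; ring
    rw [h2] at h1
    refine h1.trans ?_
    have h3 : n₁ + q * m ≡ n₁ + 0 [MOD q] :=
      Nat.ModEq.add_left n₁ ((Nat.modEq_zero_iff_dvd).2 (dvd_mul_right q m))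
    simp at h3 ⊢
  have hmem : m + r ∈ Finset.Ico m (m + q) := Finset.mem_Ico.2 ⟨by omega, by omega⟩
  rw [← Finset.mul_prod_erase _ b hmem, ← Finset.mul_prod_erase _ a hmem, ← mul_assoc]
  refine mul_le_mul (hs _ (by omega) hmod) ?_ (Finset.prod_nonneg fun j _ => hb j)
    (mul_nonneg hp (ha _ (by omega)).le)
  refine Finset.prod_le_prod (fun j _ => hb j) (fun j hj => hab j ?_)
  have := Finset.mem_Ico.1 (Finset.mem_of_mem_erase hj)
  omega

theorem padic_blocks (a b : ℕ → ℚ) (p : ℚ) (N₀ q n₁ : ℕ) (hq : 0 < q)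
    (ha : ∀ j, N₀ ≤ j → 0 < a j) (hb : ∀ j, 0 ≤ b j) (hab : ∀ j, N₀ ≤ j → b j ≤ a j)
    (hp : 0 ≤ p) (hs : ∀ j, N₀ ≤ j → j ≡ n₁ [MOD q] → b j ≤ p * a j) (R : ℕ) :
    ∀ m n : ℕ, N₀ ≤ m → m + R * q ≤ n →
    ∏ j ∈ Finset.Ico m n, b j ≤ p ^ R * ∏ j ∈ Finset.Ico m n, a j := by
  induction R with
  | zero =>
    intro m n hm _
    rw [pow_zero, one_mul]
    refine Finset.prod_le_prod (fun j _ => hb j) (fun j hj => hab j ?_)
    have := Finset.mem_Ico.1 hj
    omega
  | succ R ih =>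
    intro m n hm hn
    have hn' : (m + q) + R * q ≤ n := by
      have : m + (R + 1) * q = (m + q) + R * q := by ring
      omega
    have h1 := padic_block a b p N₀ q n₁ hq ha hb hab hp hs m hm
    have h2 := ih (m + q) n (by omega) hn'
    have hmq : m + q ≤ n := by
      have : m + q ≤ (m + q) + R * q := Nat.le_add_right _ _
      omega
    rw [← Finset.prod_Ico_consecutive b (Nat.le_add_right m q) hmq,
      ← Finset.prod_Ico_consecutive a (Nat.le_add_right m q) hmq]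
    calc _ ≤ (p * ∏ j ∈ Finset.Ico m (m + q), a j) * (p ^ R * ∏ j ∈ Finset.Ico (m + q) n, a j) := by
          refine mul_le_mul h1 h2 (Finset.prod_nonneg fun j _ => hb j) ?_
          refine mul_nonneg hp (Finset.prod_nonneg fun j hj => (ha j ?_).le)
          have := Finset.mem_Ico.1 hj
          omega
      _ = _ := by ring

theorem padic_pow (p : ℕ) [Fact p.Prime] (z : ℚ) (i : ℕ) : padicNorm p (z ^ i) = padicNorm p z ^ i := by
  induction i with
  | zero => simp
  | succ k ih => rw [pow_succ, pow_succ, padicNorm.mul, ih]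

/-- the norm of the value of an integer polynomial -/
theorem padic_le (p : ℕ) [Fact p.Prime] (P : ℤ[X]) (z C : ℚ) (hC : 1 ≤ C) (hz : padicNorm p z ≤ C) :
    padicNorm p (ev P z) ≤ C ^ P.natDegree := by
  rw [ev, eval_map, eval₂_eq_sum_range]
  refine padicNorm.sum_le' (fun i hi => ?_) (by positivity)
  have hi' : i ≤ P.natDegree := Nat.lt_succ_iff.1 (Finset.mem_range.1 hi)
  rw [padicNorm.mul]
  have h1 : padicNorm p ((Int.castRingHom ℚ) (P.coeff i)) ≤ 1 := padicNorm.of_int _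
  have h2 : padicNorm p (z ^ i) ≤ C ^ P.natDegree := by
    rw [padic_pow]
    calc padicNorm p z ^ i ≤ C ^ i := pow_le_pow_left₀ (padicNorm.nonneg _) hz i
      _ ≤ C ^ P.natDegree := pow_le_pow_right₀ hC hi'
  calc _ ≤ 1 * C ^ P.natDegree := mul_le_mul h1 h2 (padicNorm.nonneg _) zero_le_one
    _ = _ := one_mul _

/-- a large argument: the leading term dominates -/
theorem padic_big (p : ℕ) [Fact p.Prime] (P : ℤ[X]) (z : ℚ)
    (h1 : 1 < padicNorm p (P.leadingCoeff : ℚ) * padicNorm p z) :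
    padicNorm p (P.leadingCoeff : ℚ) * padicNorm p z ^ P.natDegree ≤ padicNorm p (ev P z) := by
  have hlc1 : padicNorm p (P.leadingCoeff : ℚ) ≤ 1 := padicNorm.of_int _
  have hlc0 : 0 ≤ padicNorm p (P.leadingCoeff : ℚ) := padicNorm.nonneg _
  have hz1 : 1 < padicNorm p z := by
    by_contra hcon
    push Not at hcon
    have : padicNorm p (P.leadingCoeff : ℚ) * padicNorm p z ≤ 1 * 1 :=
      mul_le_mul hlc1 hcon (padicNorm.nonneg _) zero_le_one
    linarith
  have hz0 : 0 < padicNorm p z := by linarith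
  rw [ev, eval_map, eval₂_eq_sum_range, Finset.sum_range_succ]
  set S := ∑ i ∈ Finset.range P.natDegree, (Int.castRingHom ℚ) (P.coeff i) * z ^ i with hS
  have hlead : padicNorm p ((Int.castRingHom ℚ) (P.coeff P.natDegree) * z ^ P.natDegree) =
      padicNorm p (P.leadingCoeff : ℚ) * padicNorm p z ^ P.natDegree := by
    rw [padicNorm.mul, padic_pow]; rfl
  have hpos : 0 < padicNorm p (P.leadingCoeff : ℚ) * padicNorm p z ^ P.natDegree := by
    have : 0 < padicNorm p (P.leadingCoeff : ℚ) := by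
      rcases hlc0.lt_or_eq with h | h
      · exact h
      · rw [← h] at h1; linarith
    positivity
  have hlt : padicNorm p S < padicNorm p (P.leadingCoeff : ℚ) * padicNorm p z ^ P.natDegree := by
    rw [hS]
    refine padicNorm.sum_lt' (fun i hi => ?_) hpos
    have hi' : i < P.natDegree := Finset.mem_range.1 hi
    rw [padicNorm.mul, padic_pow]
    have h3 : padicNorm p ((Int.castRingHom ℚ) (P.coeff i)) ≤ 1 := padicNorm.of_int _
    calc padicNorm p ((Int.castRingHom ℚ) (P.coeff i)) * padicNorm p z ^ i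
        ≤ 1 * padicNorm p z ^ (P.natDegree - 1) := by
          refine mul_le_mul h3 (pow_le_pow_right₀ hz1.le (by omega)) (by positivity) zero_le_one
      _ < (padicNorm p (P.leadingCoeff : ℚ) * padicNorm p z) * padicNorm p z ^ (P.natDegree - 1) :=
          mul_lt_mul_of_pos_right h1 (by positivity)
      _ = padicNorm p (P.leadingCoeff : ℚ) * padicNorm p z ^ P.natDegree := by
          rw [mul_assoc, ← pow_succ']
          congr 2
          omega
  rw [padicNorm.add_eq_max_of_ne (by rw [hlead]; exact hlt.ne), hlead]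
  exact le_max_right _ _

theorem padic_shift (p : ℕ) [Fact p.Prime] (z : ℚ) (i : ℕ) (hz : 1 < padicNorm p z) :
    padicNorm p (z + i) = padicNorm p z := by
  have h1 : padicNorm p ((i : ℕ) : ℚ) ≤ 1 := padicNorm.of_nat i
  rw [padicNorm.add_eq_max_of_ne (by intro h; rw [h] at hz; linarith)]
  exact max_eq_left (by linarith)

/-- the finite difference of order `d` -/
theorem padic_diff (p : ℕ) [Fact p.Prime] (P : ℤ[X]) (x c : ℚ) (hc : 0 ≤ c)
    (h : ∀ i : ℕ, i ≤ P.natDegree → padicNorm p (ev P (x + i)) ≤ c) :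
    padicNorm p (((P.leadingCoeff * (Nat.factorial P.natDegree : ℤ) : ℤ)) : ℚ) ≤ c := by
  have hinj : Function.Injective (Int.castRingHom ℚ) := RingHom.injective_int (Int.castRingHom ℚ)
  have h1 := congrFun (Polynomial.fwdDiff_iter_degree_eq_factorial (P.map (Int.castRingHom ℚ))) x
  rw [fwdDiff_iter_eq_sum_shift, natDegree_map_eq_of_injective hinj,
    leadingCoeff_map_of_injective hinj] at h1
  have h2 : ((P.leadingCoeff * (Nat.factorial P.natDegree : ℤ) : ℤ) : ℚ) =
      ∑ k ∈ Finset.range (P.natDegree + 1), ((-1 : ℤ) ^ (P.natDegree - k) * (P.natDegree.choose k : ℤ)) •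
        (P.map (Int.castRingHom ℚ)).eval (x + k • (1 : ℚ)) := by
    rw [h1]
    simp
  rw [h2]
  refine padicNorm.sum_le' (fun i hi => ?_) hc
  have hi' : i ≤ P.natDegree := Nat.lt_succ_iff.1 (Finset.mem_range.1 hi)
  rw [zsmul_eq_mul, padicNorm.mul]
  have h3 := h i hi'
  have h4 : padicNorm p ((((-1 : ℤ) ^ (P.natDegree - i) * (P.natDegree.choose i : ℤ) : ℤ)) : ℚ) ≤ 1 :=
    padicNorm.of_int _
  have h5 : (P.map (Int.castRingHom ℚ)).eval (x + i • (1 : ℚ)) = ev P (x + i) := by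
    rw [ev, nsmul_eq_mul, mul_one]
  rw [h5]
  calc _ ≤ 1 * c := mul_le_mul h4 h3 (padicNorm.nonneg _) zero_le_one
    _ = c := one_mul c

theorem padic : S_PADIC := by
  intro A B p N₀ hp hA hB hdeg h1 h2
  have : Fact p.Prime := ⟨hp⟩
  obtain ⟨n₁, hn₁, hlt⟩ := h2
  have hp1 : (1 : ℚ) < p := by exact_mod_cast hp.one_lt
  have hp0 : (0 : ℚ) < p := by linarith
  set s := padicValInt p (A.eval (n₁ : ℤ)) + 1 with hs
  -- norms
  have hg : ∀ j, N₀ ≤ j → j ≡ n₁ [MOD p ^ s] →
      padicNorm p (ev B (j : ℚ)) ≤ (p : ℚ)⁻¹ * padicNorm p (ev A (j : ℚ)) := by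
    intro j hj hmod
    obtain ⟨hAj, hBj, _⟩ := h1 j hj
    have hdvd : ((p : ℤ) ^ s) ∣ (j : ℤ) - n₁ := by
      have := (Nat.modEq_iff_dvd.1 hmod.symm)
      exact_mod_cast this
    have hB1 : ((p : ℤ) ^ s) ∣ B.eval (n₁ : ℤ) := (padicValInt_dvd_iff s _).2 (Or.inr hlt)
    have hB2 : ((p : ℤ) ^ s) ∣ B.eval (j : ℤ) := by
      have := dvd_add (hdvd.trans (sub_dvd_eval_sub (j : ℤ) n₁ B)) hB1
      simpa using this
    have hA2 : ¬ ((p : ℤ) ^ s) ∣ A.eval (j : ℤ) := by
      intro hcon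
      have h3 : ((p : ℤ) ^ s) ∣ A.eval (n₁ : ℤ) := by
        have := dvd_sub hcon (hdvd.trans (sub_dvd_eval_sub (j : ℤ) n₁ A))
        simpa using this
      rcases (padicValInt_dvd_iff s _).1 h3 with h4 | h4
      · exact (h1 n₁ hn₁).1 h4
      · omega
    have hvB : s ≤ padicValInt p (B.eval (j : ℤ)) := by
      rcases (padicValInt_dvd_iff s _).1 hB2 with h4 | h4
      · exact absurd h4 hBj
      · exact h4
    have hvA : padicValInt p (A.eval (j : ℤ)) < s := by
      by_contra hcon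
      exact hA2 ((padicValInt_dvd_iff s _).2 (Or.inr (not_lt.1 hcon)))
    have := padic_step p (A.eval (j : ℤ)) (B.eval (j : ℤ)) hAj hBj 1 (by omega)
    rw [pow_one] at this
    rw [padic_ev, padic_ev]
    exact this
  have hpos : ∀ j, N₀ ≤ j → 0 < padicNorm p (ev A (j : ℚ)) := by
    intro j hj
    rw [padic_ev]
    exact lt_of_le_of_ne (padicNorm.nonneg _) (padicNorm.nonzero (Int.cast_ne_zero.2 (h1 j hj).1)).symm
  have hle : ∀ j, N₀ ≤ j → padicNorm p (ev B (j : ℚ)) ≤ padicNorm p (ev A (j : ℚ)) := by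
    intro j hj
    obtain ⟨hAj, hBj, hv⟩ := h1 j hj
    have := padic_step p (A.eval (j : ℤ)) (B.eval (j : ℤ)) hAj hBj 0 (by omega)
    rw [pow_zero, one_mul] at this
    rw [padic_ev, padic_ev]
    exact this
  -- constants
  have hlcB0 : B.leadingCoeff ≠ 0 := leadingCoeff_ne_zero.2 hB
  set lB := padicNorm p (B.leadingCoeff : ℚ) with hlB
  have hlB0 : 0 < lB := lt_of_le_of_ne (padicNorm.nonneg _) (padicNorm.nonzero (Int.cast_ne_zero.2 hlcB0)).symm
  have hlB1 : lB ≤ 1 := padicNorm.of_int _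
  set C := lB⁻¹ with hC
  have hC1 : 1 ≤ C := (one_le_inv₀ hlB0).2 hlB1
  set T := padicNorm p (((B.leadingCoeff * (Nat.factorial B.natDegree : ℤ) : ℤ)) : ℚ) with hT
  have hT0 : 0 < T := lt_of_le_of_ne (padicNorm.nonneg _)
    (padicNorm.nonzero (Int.cast_ne_zero.2
      (mul_ne_zero hlcB0 (by exact_mod_cast Nat.factorial_ne_zero _)))).symm
  have hTl : T ≤ lB := by
    rw [hT, Int.cast_mul, padicNorm.mul]
    have : padicNorm p (((Nat.factorial B.natDegree : ℤ)) : ℚ) ≤ 1 := padicNorm.of_int _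
    calc _ ≤ lB * 1 := mul_le_mul_of_nonneg_left this hlB0.le
      _ = lB := mul_one _
  obtain ⟨R, hR⟩ : ∃ R : ℕ, ((p : ℚ)⁻¹) ^ R < T / C ^ B.natDegree :=
    exists_pow_lt_of_lt_one (by positivity) (inv_lt_one_of_one_lt₀ hp1)
  have hCd : (0 : ℚ) < C ^ B.natDegree := by positivity
  have hR1 : ((p : ℚ)⁻¹) ^ R * C ^ B.natDegree < T := (lt_div_iff₀ hCd).1 hR
  refine ⟨R * p ^ s + 1, by omega, fun x ν hν h => ?_⟩
  have hνmono : ∀ i, i ≤ A.natDegree → N₀ ≤ ν i := by
    intro i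
    induction i with
    | zero => intro _; exact hν
    | succ k ih =>
      intro hk
      have := (h k (by omega)).2.2.1
      have := ih (by omega)
      omega
  have hkey : ∀ i : ℕ, i ≤ A.natDegree →
      padicNorm p (ev B (x + i)) ≤ ((p : ℚ)⁻¹) ^ R * padicNorm p (ev A (x + i)) := by
    intro i hi
    obtain ⟨_, _, hL, hblk⟩ := h i hi
    have h3 := padic_blocks (fun j => padicNorm p (ev A (j : ℚ))) (fun j => padicNorm p (ev B (j : ℚ)))
      ((p : ℚ)⁻¹) N₀ (p ^ s) n₁ (pow_pos hp.pos s) hpos (fun j => padicNorm.nonneg _) hle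
      (inv_nonneg.2 hp0.le) hg R (ν i) (ν (i + 1)) (hνmono i hi) (by omega)
    have hprod : ∀ P : ℤ[X], padicNorm p (∏ j ∈ Finset.Ico (ν i) (ν (i + 1)), ev P (j : ℚ)) =
        ∏ j ∈ Finset.Ico (ν i) (ν (i + 1)), padicNorm p (ev P (j : ℚ)) := by
      intro P
      generalize Finset.Ico (ν i) (ν (i + 1)) = S
      induction S using Finset.induction_on with
      | empty => simp
      | insert a S ha ih => rw [Finset.prod_insert ha, Finset.prod_insert ha, padicNorm.mul, ih]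
    have h4 := congrArg (padicNorm p) hblk
    rw [padicNorm.mul, padicNorm.mul, hprod, hprod] at h4
    have hPA : 0 < ∏ j ∈ Finset.Ico (ν i) (ν (i + 1)), padicNorm p (ev A (j : ℚ)) := by
      refine Finset.prod_pos fun j hj => hpos j ?_
      have := Finset.mem_Ico.1 hj
      have := hνmono i hi
      omega
    refine le_of_mul_le_mul_right ?_ hPA
    rw [← h4]
    calc _ ≤ padicNorm p (ev A (x + i)) * (((p : ℚ)⁻¹) ^ R *
            ∏ j ∈ Finset.Ico (ν i) (ν (i + 1)), padicNorm p (ev A (j : ℚ))) :=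
          mul_le_mul_of_nonneg_left h3 (padicNorm.nonneg _)
      _ = _ := by ring
  by_cases hx : 1 < lB * padicNorm p x
  · have hx1 : 1 < padicNorm p x := by
      by_contra hcon
      push Not at hcon
      have : lB * padicNorm p x ≤ 1 * 1 := mul_le_mul hlB1 hcon (padicNorm.nonneg _) zero_le_one
      linarith
    have h5 := hkey 0 (Nat.zero_le _)
    rw [Nat.cast_zero, add_zero] at h5
    have h6 := padic_big p B x hx
    have h7 := padic_le p A x (padicNorm p x) hx1.le le_rfl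
    rw [hdeg] at h7
    have h8 : lB * padicNorm p x ^ B.natDegree ≤ ((p : ℚ)⁻¹) ^ R * padicNorm p x ^ B.natDegree :=
      (h6.trans h5).trans (mul_le_mul_of_nonneg_left h7 (by positivity))
    have h9 : lB ≤ ((p : ℚ)⁻¹) ^ R := le_of_mul_le_mul_right h8 (by positivity)
    have h10 : ((p : ℚ)⁻¹) ^ R * 1 ≤ ((p : ℚ)⁻¹) ^ R * C ^ B.natDegree :=
      mul_le_mul_of_nonneg_left (one_le_pow₀ hC1) (by positivity)
    linarith
  · have hxC : padicNorm p x ≤ C := by
      push Not at hx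
      rw [hC, ← one_div]
      rw [le_div_iff₀ hlB0]
      linarith
    have h5 : ∀ i : ℕ, i ≤ B.natDegree → padicNorm p (ev B (x + i)) ≤ ((p : ℚ)⁻¹) ^ R * C ^ B.natDegree := by
      intro i hi
      refine (hkey i (by omega)).trans (mul_le_mul_of_nonneg_left ?_ (by positivity))
      have h6 : padicNorm p (x + i) ≤ C := by
        refine (padicNorm.nonarchimedean).trans (max_le hxC ?_)
        exact (padicNorm.of_nat i).trans hC1
      have h7 := padic_le p A (x + i) C hC1 h6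
      rw [hdeg] at h7
      exact h7
    have h6 := padic_diff p B x _ (by positivity) h5
    linarith

end Pool.Agent.K9h58.SH
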