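import Pool.Agent.K9h58.SH.Stm2
import Pool.Agent.K9h58.SH.Padic

/-!
# Project SH, leaf PAD2
-/

set_option autoImplicit false

open Polynomial

namespace Pool.Agent.K9h58.SH

theorem pad2_lag (hL : S_LAG) (F : ℤ[X]) (p : ℕ) (hp : p.Prime) (hF : F ≠ 0) (x : ℚ) (z : ℕ → ℤ)
    (W h : ℕ) (S : Finset ℕ) (hinj : Set.InjOn z S) (hW : ∀ i ∈ S, ∀ j ∈ S, |z i - z j| ≤ W)
    (hv : ∀ i ∈ S, ev F (x + z i) = 0 ∨ (h : ℤ) ≤ padicValRat p (ev F (x + z i)))
    (hlt : F.leadingCoeff.natAbs * W ^ F.natDegree < p ^ h) : S.card ≤ F.natDegree := by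
  by_contra hcon
  have hc : F.natDegree + 1 ≤ S.card := by omega
  have hmem : ∀ l, S.orderEmbOfCardLe hc l ∈ S := fun l => S.orderEmbOfCardLe_mem hc l
  have := hL F p hp hF x (fun l => z (S.orderEmbOfCardLe hc l)) W h
    (fun a b hab => (S.orderEmbOfCardLe hc).injective (hinj (hmem a) (hmem b) hab))
    (fun l m => hW _ (hmem l) _ (hmem m)) (fun l => hv _ (hmem l))
  omega

theorem pad2_prod (p : ℕ) [Fact p.Prime] (P : ℤ[X]) (S : Finset ℕ)
    (h : ∀ j ∈ S, P.eval (j : ℤ) ≠ 0) : (∏ j ∈ S, ev P (j : ℚ)) ≠ 0 ∧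
    padicValRat p (∏ j ∈ S, ev P (j : ℚ)) = ∑ j ∈ S, (padicValInt p (P.eval (j : ℤ)) : ℤ) := by
  induction S using Finset.induction_on with
  | empty => simp
  | insert a S ha ih =>
    obtain ⟨i1, i2⟩ := ih (fun j hj => h j (Finset.mem_insert_of_mem hj))
    have h1 : ev P (a : ℚ) ≠ 0 := by
      rw [padic_ev]; exact Int.cast_ne_zero.2 (h a (Finset.mem_insert_self a S))
    rw [Finset.prod_insert ha, Finset.sum_insert ha]
    refine ⟨mul_ne_zero h1 i1, ?_⟩
    rw [padicValRat.mul h1 i1, i2, padic_ev, padicValRat.of_int]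

theorem pad2_blk (p : ℕ) [Fact p.Prime] (A B : ℤ[X]) (y : ℚ) (m n : ℕ)
    (h : ∀ j ∈ Finset.Ico m n, A.eval (j : ℤ) ≠ 0 ∧ B.eval (j : ℤ) ≠ 0)
    (hA : ev A y ≠ 0) (hB : ev B y ≠ 0) (hb : Blk A B y m n) :
    padicValRat p (ev B y) - padicValRat p (ev A y) = VV p A B m n := by
  obtain ⟨a1, a2⟩ := pad2_prod p A (Finset.Ico m n) (fun j hj => (h j hj).1)
  obtain ⟨b1, b2⟩ := pad2_prod p B (Finset.Ico m n) (fun j hj => (h j hj).2)
  have h1 := congrArg (padicValRat p) hb
  rw [padicValRat.mul hA b1, padicValRat.mul hB a1, a2, b2] at h1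
  rw [VV, Finset.sum_sub_distrib]
  linarith

theorem pad2_exp (M q d p : ℕ) (hp : 1 < p) (hq : 0 < q) :
    ∃ G : ℕ, ∀ g : ℕ, G ≤ g → M * g ^ d < p ^ (g / q) := by
  have hp' : (1 : ℝ) < p := by exact_mod_cast hp
  have hpos : (0 : ℝ) < 1 / ((M : ℝ) * q ^ d * p + 1) := by positivity
  obtain ⟨n₀, hn₀⟩ := Filter.eventually_atTop.1
    ((tendsto_pow_const_div_const_pow_of_one_lt d hp').eventually (gt_mem_nhds hpos))
  refine ⟨q * n₀, fun g hg => ?_⟩
  set h := g / q with hh
  have h1 : n₀ ≤ h := by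
    rw [hh, Nat.le_div_iff_mul_le hq, mul_comm]; exact hg
  have h2 : g ≤ q * (h + 1) := by
    have := Nat.lt_mul_div_succ g hq
    rw [← hh] at this
    exact this.le
  have h3 := hn₀ (h + 1) (by omega)
  have hpp : (0 : ℝ) < (p : ℝ) ^ (h + 1) := by positivity
  have hMM : (0 : ℝ) < (M : ℝ) * q ^ d * p + 1 := by positivity
  rw [div_lt_div_iff₀ hpp hMM, one_mul] at h3
  have h4 : (M : ℝ) * (q * (h + 1 : ℕ)) ^ d < (p : ℝ) ^ h := by
    have hpp0 : (0 : ℝ) < p := by linarith
    refine lt_of_mul_lt_mul_right ?_ hpp0.le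
    calc (M : ℝ) * (q * (h + 1 : ℕ)) ^ d * p = ((h + 1 : ℕ) : ℝ) ^ d * ((M : ℝ) * q ^ d * p) := by
          rw [mul_pow]; ring
      _ ≤ ((h + 1 : ℕ) : ℝ) ^ d * ((M : ℝ) * q ^ d * p + 1) :=
          mul_le_mul_of_nonneg_left (by linarith) (by positivity)
      _ < (p : ℝ) ^ (h + 1) := h3
      _ = (p : ℝ) ^ h * p := pow_succ _ _
  have h5 : M * (q * (h + 1)) ^ d < p ^ h := by exact_mod_cast h4
  exact lt_of_le_of_lt (Nat.mul_le_mul_left M (Nat.pow_le_pow_left h2 d)) h5

/-- bounds for the valuations of the values -/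
theorem pad2_vals (p : ℕ) [Fact p.Prime] (A B : ℤ[X]) (hA : A ≠ 0) (hB : B ≠ 0)
    (hdeg : A.natDegree = B.natDegree) (x : ℚ) :
    (∀ i : ℕ, ev A (x + i) ≠ 0 → ev B (x + i) ≠ 0 →
      |padicValRat p (ev B (x + i)) - padicValRat p (ev A (x + i))| ≤
        padicValInt p A.leadingCoeff + padicValInt p B.leadingCoeff) ∨
    (∀ i : ℕ, ev A (x + i) ≠ 0 → ev B (x + i) ≠ 0 →
      -((A.natDegree * (padicValInt p A.leadingCoeff + padicValInt p B.leadingCoeff) : ℕ) : ℤ) ≤
        padicValRat p (ev A (x + i)) ∧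
      -((A.natDegree * (padicValInt p A.leadingCoeff + padicValInt p B.leadingCoeff) : ℕ) : ℤ) ≤
        padicValRat p (ev B (x + i))) := by
  have hp1 : (1 : ℚ) < p := by exact_mod_cast (Fact.out : p.Prime).one_lt
  have hp0 : (0 : ℚ) < p := by linarith
  set a := padicValInt p A.leadingCoeff with ha
  set b := padicValInt p B.leadingCoeff with hb
  have hlA : padicNorm p (A.leadingCoeff : ℚ) = (p : ℚ) ^ (-(a : ℤ)) :=
    padic_norm p _ (leadingCoeff_ne_zero.2 hA)
  have hlB : padicNorm p (B.leadingCoeff : ℚ) = (p : ℚ) ^ (-(b : ℤ)) :=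
    padic_norm p _ (leadingCoeff_ne_zero.2 hB)
  by_cases hx : (p : ℚ) ^ (a + b) < padicNorm p x
  · left
    intro i hAi hBi
    have hx1 : 1 < padicNorm p x := lt_of_le_of_lt (one_le_pow₀ hp1.le) hx
    have hxi : padicNorm p (x + i) = padicNorm p x := padic_shift p x i hx1
    have key : ∀ (P : ℤ[X]) (c : ℕ), c ≤ a + b → padicNorm p (P.leadingCoeff : ℚ) = (p : ℚ) ^ (-(c : ℤ)) →
        (p : ℚ) ^ (-(c : ℤ)) * padicNorm p x ^ P.natDegree ≤ padicNorm p (ev P (x + i)) := by
      intro P c hc hP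
      have h1 : 1 < padicNorm p (P.leadingCoeff : ℚ) * padicNorm p (x + i) := by
        rw [hP, hxi]
        have h2 : (1 : ℚ) ≤ (p : ℚ) ^ (-(c : ℤ)) * (p : ℚ) ^ (a + b) := by
          rw [← zpow_natCast (p : ℚ) (a + b), ← zpow_add₀ hp0.ne']
          exact one_le_zpow₀ hp1.le (by push_cast; omega)
        exact lt_of_le_of_lt h2 (mul_lt_mul_of_pos_left hx (by positivity))
      have h3 := padic_big p P (x + i) h1
      rw [hP, hxi] at h3
      exact h3
    have hup : ∀ (P : ℤ[X]), padicNorm p (ev P (x + i)) ≤ padicNorm p x ^ P.natDegree := by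
      intro P
      have := padic_le p P (x + i) (padicNorm p x) hx1.le hxi.le
      exact this
    have hA1 := key A a (by omega) hlA
    have hB1 := key B b (by omega) hlB
    have hA2 := hup A
    have hB2 := hup B
    rw [hdeg] at hA1 hA2
    rw [padicNorm.eq_zpow_of_nonzero hAi] at hA1 hA2
    rw [padicNorm.eq_zpow_of_nonzero hBi] at hB1 hB2
    have h6 : (p : ℚ) ^ (-(b : ℤ) + -padicValRat p (ev A (x + i))) ≤
        (p : ℚ) ^ (-padicValRat p (ev B (x + i))) := by
      rw [zpow_add₀ hp0.ne']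
      exact (mul_le_mul_of_nonneg_left hA2 (by positivity)).trans hB1
    have h7 : (p : ℚ) ^ (-(a : ℤ) + -padicValRat p (ev B (x + i))) ≤
        (p : ℚ) ^ (-padicValRat p (ev A (x + i))) := by
      rw [zpow_add₀ hp0.ne']
      exact (mul_le_mul_of_nonneg_left hB2 (by positivity)).trans hA1
    rw [zpow_le_zpow_iff_right₀ hp1] at h6 h7
    rw [abs_le]
    constructor <;> omega
  · right
    intro i hAi hBi
    push Not at hx
    have hC1 : (1 : ℚ) ≤ (p : ℚ) ^ (a + b) := one_le_pow₀ hp1.le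
    have hxi : padicNorm p (x + i) ≤ (p : ℚ) ^ (a + b) :=
      (padicNorm.nonarchimedean).trans (max_le hx ((padicNorm.of_nat i).trans hC1))
    have key : ∀ P : ℤ[X], P.natDegree = A.natDegree → ev P (x + i) ≠ 0 →
        -((A.natDegree * (a + b) : ℕ) : ℤ) ≤ padicValRat p (ev P (x + i)) := by
      intro P hPd hP
      have h1 := padic_le p P (x + i) _ hC1 hxi
      rw [padicNorm.eq_zpow_of_nonzero hP, hPd, ← pow_mul, ← zpow_natCast, zpow_le_zpow_iff_right₀ hp1] at h1
      rw [mul_comm A.natDegree (a + b)]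
      omega
    exact ⟨key A rfl hAi, key B hdeg.symm hBi⟩

theorem pad2 (hL : S_LAG) : S_PAD2 := by
  intro A B p N₀ hp hA hB hdeg hne hgain C
  have : Fact p.Prime := ⟨hp⟩
  obtain ⟨c, Λ, hc, hG⟩ := hgain
  set d := A.natDegree with hd
  set K := 4 * d + 3 with hK
  set e := padicValInt p A.leadingCoeff + padicValInt p B.leadingCoeff with he
  set h₀ := (A.leadingCoeff.natAbs + B.leadingCoeff.natAbs) * K ^ d with hh₀
  set R := h₀ + d * e + e + 1 with hR
  obtain ⟨G, hGexp⟩ := pad2_exp ((A.leadingCoeff.natAbs + B.leadingCoeff.natAbs) * (K * C) ^ d) (4 * c) d p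
    hp.one_lt (by omega)
  refine ⟨Λ + c * R + G + 1, by omega, fun x ν hν h => ?_⟩
  -- positions
  have hmono : ∀ i, i ≤ K → N₀ ≤ ν i := by
    intro i
    induction i with
    | zero => intro _; exact hν
    | succ k ih =>
      intro hk
      have := (h k (by omega)).2.2.1
      have := ih (by omega)
      omega
  have hstep : ∀ i, i < K → ν i < ν (i + 1) := by
    intro i hi
    have := (h i hi).2.2.1
    omega
  have hmono2 : ∀ k i, i + k ≤ K → ν i ≤ ν (i + k) := by
    intro k
    induction k with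
    | zero => intro i _; exact le_rfl
    | succ k ih =>
      intro i hi
      have h1 := ih i (by omega)
      have h2 := hstep (i + k) (by omega)
      have : i + (k + 1) = i + k + 1 := by ring
      rw [this]
      omega
  have hlen : ∀ i, i ≤ K → ν i ≤ ν 0 + i * (C * (ν 1 - ν 0)) := by
    intro i
    induction i with
    | zero => intro _; simp
    | succ k ih =>
      intro hk
      have h1 := ih (by omega)
      have h2 := (h k (by omega)).2.2.2.2.1
      have h3 : (k + 1) * (C * (ν 1 - ν 0)) = k * (C * (ν 1 - ν 0)) + C * (ν 1 - ν 0) := by ring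
      omega
  -- the valuations
  have hV : ∀ i, i < K → padicValRat p (ev B (x + i)) - padicValRat p (ev A (x + i)) =
      VV p A B (ν i) (ν (i + 1)) := by
    intro i hi
    obtain ⟨h1, h2, h3, h4, _⟩ := h i hi
    refine pad2_blk p A B (x + i) (ν i) (ν (i + 1)) (fun j hj => hne j ?_) h1 h2 h4
    have := Finset.mem_Ico.1 hj
    have := hmono i (by omega)
    omega
  have hpow : h₀ < p ^ h₀ := Nat.lt_pow_self hp.one_lt
  have hS : ∀ F : ℤ[X], F ≠ 0 → F.natDegree = d →
      F.leadingCoeff.natAbs ≤ A.leadingCoeff.natAbs + B.leadingCoeff.natAbs → ∀ S : Finset ℕ,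
      (∀ i ∈ S, i < K) → (∀ i ∈ S, (h₀ : ℤ) ≤ padicValRat p (ev F (x + i))) → S.card ≤ d := by
    intro F hF hFd hFl S hSK hSv
    have := pad2_lag hL F p hp hF x (fun i => (i : ℤ)) K h₀ S (fun i _ j _ hij => Int.ofNat_inj.1 hij)
      (fun i hi j hj => by
        have h1 := hSK i hi
        have h2 := hSK j hj
        rw [abs_le]
        constructor <;> omega)
      (fun i hi => Or.inr (by simpa using hSv i hi))
      (lt_of_le_of_lt (by rw [hFd]; exact Nat.mul_le_mul_right _ hFl) hpow)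
    rw [hFd] at this
    exact this
  classical
  set S₁ := (Finset.range K).filter (fun i => (R : ℤ) ≤ VV p A B (ν i) (ν (i + 1))) with hS₁
  set S₂ := (Finset.range K).filter (fun i => VV p A B (ν i) (ν (i + 1)) ≤ -(R : ℤ)) with hS₂
  have hc12 : S₁.card ≤ d ∧ S₂.card ≤ d := by
    rcases pad2_vals p A B hA hB hdeg x with hcase | hcase
    · have hempty : ∀ i, i < K → |VV p A B (ν i) (ν (i + 1))| ≤ (e : ℤ) := by
        intro i hi
        have h1 := hcase i (h i hi).1 (h i hi).2.1
        rw [hV i hi] at h1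
        rw [he]; push_cast; exact h1
      constructor
      · have : S₁ = ∅ := by
          rw [hS₁, Finset.filter_eq_empty_iff]
          intro i hi hcon
          have h1 := hempty i (Finset.mem_range.1 hi)
          rw [abs_le] at h1
          have : (e : ℤ) < R := by rw [hR]; push_cast; omega
          omega
        rw [this]; simp
      · have : S₂ = ∅ := by
          rw [hS₂, Finset.filter_eq_empty_iff]
          intro i hi hcon
          have h1 := hempty i (Finset.mem_range.1 hi)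
          rw [abs_le] at h1
          have : (e : ℤ) < R := by rw [hR]; push_cast; omega
          omega
        rw [this]; simp
    · have hRR : (R : ℤ) = h₀ + (d * e : ℕ) + e + 1 := by rw [hR]; push_cast; ring
      constructor
      · refine hS B hB hdeg.symm (by omega) S₁ (fun i hi => ?_) (fun i hi => ?_)
        · exact Finset.mem_range.1 (Finset.mem_filter.1 hi).1
        · have hi' := Finset.mem_range.1 (Finset.mem_filter.1 hi).1
          have h1 := (Finset.mem_filter.1 hi).2
          have h2 := (hcase i (h i hi').1 (h i hi').2.1).1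
          have h3 := hV i hi'
          rw [← he, ← hd] at h2
          omega
      · refine hS A hA rfl (by omega) S₂ (fun i hi => ?_) (fun i hi => ?_)
        · exact Finset.mem_range.1 (Finset.mem_filter.1 hi).1
        · have hi' := Finset.mem_range.1 (Finset.mem_filter.1 hi).1
          have h1 := (Finset.mem_filter.1 hi).2
          have h2 := (hcase i (h i hi').1 (h i hi').2.1).2
          have h3 := hV i hi'
          rw [← he, ← hd] at h2
          omega
  -- the high powers
  have hJ : ∀ i, ∃ j, i < K → ¬ ((R : ℤ) ≤ VV p A B (ν i) (ν (i + 1))) →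
      ¬ (VV p A B (ν i) (ν (i + 1)) ≤ -(R : ℤ)) → j ∈ Finset.Ico (ν i) (ν (i + 1)) ∧
      ν (i + 1) - ν i ≤ c * (padicValInt p (A.eval (j : ℤ)) + padicValInt p (B.eval (j : ℤ))) := by
    intro i
    by_cases hi : i < K ∧ ¬ ((R : ℤ) ≤ VV p A B (ν i) (ν (i + 1))) ∧
        ¬ (VV p A B (ν i) (ν (i + 1)) ≤ -(R : ℤ))
    · obtain ⟨h1, h2, h3⟩ := hi
      have h4 := (h i h1).2.2.1
      rcases hG (ν i) (ν (i + 1)) (hmono i h1.le) (by omega) with h5 | ⟨j, hj, hj'⟩
      · exfalso
        have h6 : |VV p A B (ν i) (ν (i + 1))| ≤ (R : ℤ) := by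
          rw [abs_le]; constructor <;> omega
        have h7 : (c : ℤ) * |VV p A B (ν i) (ν (i + 1))| ≤ c * R :=
          mul_le_mul_of_nonneg_left h6 (by positivity)
        have h8 : ((c * R : ℕ) : ℤ) = (c : ℤ) * R := by push_cast; ring
        omega
      · exact ⟨j, fun _ _ _ => ⟨hj, hj'⟩⟩
    · exact ⟨0, fun h1 h2 h3 => absurd ⟨h1, h2, h3⟩ hi⟩
  choose J hJ using hJ
  have hT : ∀ F : ℤ[X], F ≠ 0 → F.natDegree = d →
      F.leadingCoeff.natAbs ≤ A.leadingCoeff.natAbs + B.leadingCoeff.natAbs → ∀ S : Finset ℕ,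
      (∀ i ∈ S, i < K ∧ J i ∈ Finset.Ico (ν i) (ν (i + 1)) ∧
        ν (i + 1) - ν i ≤ 2 * c * padicValInt p (F.eval (J i : ℤ))) → S.card ≤ d := by
    intro F hF hFd hFl S hSK
    have hlt : ∀ i ∈ S, ∀ j ∈ S, i < j → J i < J j := by
      intro i hi j hj hij
      have h1 := Finset.mem_Ico.1 (hSK i hi).2.1
      have h2 := Finset.mem_Ico.1 (hSK j hj).2.1
      have h3 := (hSK j hj).1
      have h4 := hmono2 (j - (i + 1)) (i + 1) (by omega)
      have h5 : i + 1 + (j - (i + 1)) = j := by omega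
      rw [h5] at h4
      omega
    have hrange : ∀ i ∈ S, ν 0 ≤ J i ∧ J i ≤ ν 0 + K * (C * (ν 1 - ν 0)) := by
      intro i hi
      have h1 := Finset.mem_Ico.1 (hSK i hi).2.1
      have h3 := (hSK i hi).1
      have h4 := hmono2 i 0 (by omega)
      rw [zero_add] at h4
      have h5 := hlen (i + 1) (by omega)
      have h6 : (i + 1) * (C * (ν 1 - ν 0)) ≤ K * (C * (ν 1 - ν 0)) := Nat.mul_le_mul_right _ (by omega)
      omega
    have hg0 : G ≤ ν 1 - ν 0 := by
      have := (h 0 (by omega)).2.2.1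
      rw [zero_add] at this
      omega
    have := pad2_lag hL F p hp hF 0 (fun i => (J i : ℤ)) (K * (C * (ν 1 - ν 0))) ((ν 1 - ν 0) / (4 * c)) S
      (fun i hi j hj hij => by
        by_contra hcon
        have hij' : J i = J j := Int.ofNat_inj.1 hij
        rcases lt_or_gt_of_ne hcon with h1 | h1
        · have := hlt i hi j hj h1; omega
        · have := hlt j hj i hi h1; omega)
      (fun i hi j hj => by
        have h1 := hrange i hi
        have h2 := hrange j hj
        rw [abs_le]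
        constructor <;> omega)
      (fun i hi => Or.inr (by
        have h1 := (hSK i hi).2.2
        have h2 := (h i (hSK i hi).1).2.2.2.2.2
        have h3 : ev F (0 + ((J i : ℤ) : ℚ)) = ((F.eval (J i : ℤ) : ℤ) : ℚ) := by
          rw [zero_add, Int.cast_natCast, padic_ev]
        rw [h3, padicValRat.of_int]
        have h4 : (ν 1 - ν 0) / (4 * c) ≤ padicValInt p (F.eval (J i : ℤ)) := by
          refine Nat.div_le_of_le_mul ?_
          have h5 : 4 * c * padicValInt p (F.eval (J i : ℤ)) =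
            2 * (2 * c * padicValInt p (F.eval (J i : ℤ))) := by ring
          rw [h5]
          omega
        exact_mod_cast h4))
      (by
        rw [hFd]
        refine lt_of_le_of_lt ?_ (hGexp (ν 1 - ν 0) hg0)
        rw [← mul_assoc, mul_pow, ← mul_assoc]
        exact Nat.mul_le_mul_right _ (Nat.mul_le_mul_right _ hFl))
    rw [hFd] at this
    exact this
  set S₃ := (Finset.range K).filter (fun i => J i ∈ Finset.Ico (ν i) (ν (i + 1)) ∧
        ν (i + 1) - ν i ≤ 2 * c * padicValInt p (A.eval (J i : ℤ))) with hS₃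
  set S₄ := (Finset.range K).filter (fun i => J i ∈ Finset.Ico (ν i) (ν (i + 1)) ∧
        ν (i + 1) - ν i ≤ 2 * c * padicValInt p (B.eval (J i : ℤ))) with hS₄
  have hc3 : S₃.card ≤ d := hT A hA rfl (by omega) S₃ (fun i hi =>
    ⟨Finset.mem_range.1 (Finset.mem_filter.1 hi).1, (Finset.mem_filter.1 hi).2⟩)
  have hc4 : S₄.card ≤ d := hT B hB hdeg.symm (by omega) S₄ (fun i hi =>
    ⟨Finset.mem_range.1 (Finset.mem_filter.1 hi).1, (Finset.mem_filter.1 hi).2⟩)
  have hsub : Finset.range K ⊆ (S₁ ∪ S₂) ∪ (S₃ ∪ S₄) := by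
    intro i hi
    have hi' := Finset.mem_range.1 hi
    by_cases h1 : (R : ℤ) ≤ VV p A B (ν i) (ν (i + 1))
    · exact Finset.mem_union_left _ (Finset.mem_union_left _ (Finset.mem_filter.2 ⟨hi, h1⟩))
    by_cases h2 : VV p A B (ν i) (ν (i + 1)) ≤ -(R : ℤ)
    · exact Finset.mem_union_left _ (Finset.mem_union_right _ (Finset.mem_filter.2 ⟨hi, h2⟩))
    obtain ⟨h3, h4⟩ := hJ i hi' h1 h2
    rcases le_total (padicValInt p (A.eval (J i : ℤ))) (padicValInt p (B.eval (J i : ℤ))) with h5 | h5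
    · refine Finset.mem_union_right _ (Finset.mem_union_right _ (Finset.mem_filter.2 ⟨hi, h3, ?_⟩))
      refine h4.trans ?_
      calc c * (padicValInt p (A.eval (J i : ℤ)) + padicValInt p (B.eval (J i : ℤ)))
          ≤ c * (padicValInt p (B.eval (J i : ℤ)) + padicValInt p (B.eval (J i : ℤ))) :=
            Nat.mul_le_mul_left _ (by omega)
        _ = _ := by ring
    · refine Finset.mem_union_right _ (Finset.mem_union_left _ (Finset.mem_filter.2 ⟨hi, h3, ?_⟩))
      refine h4.trans ?_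
      calc c * (padicValInt p (A.eval (J i : ℤ)) + padicValInt p (B.eval (J i : ℤ)))
          ≤ c * (padicValInt p (A.eval (J i : ℤ)) + padicValInt p (A.eval (J i : ℤ))) :=
            Nat.mul_le_mul_left _ (by omega)
        _ = _ := by ring
  have hcard := Finset.card_le_card hsub
  rw [Finset.card_range] at hcard
  have h1 := Finset.card_union_le (S₁ ∪ S₂) (S₃ ∪ S₄)
  have h2 := Finset.card_union_le S₁ S₂
  have h3 := Finset.card_union_le S₃ S₄
  omega

end Pool.Agent.K9h58.SH
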