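import Pool.Agent.K9h58.SH.Stm

set_option autoImplicit false

open Polynomial Filter Topology

namespace Pool.Agent.K9h58.SH

/-- the real polynomial -/
noncomputable def size_r (P : ℤ[X]) : ℝ[X] := P.map (Int.castRingHom ℝ)

lemma size_ev (P : ℤ[X]) (x : ℚ) : ((ev P x : ℚ) : ℝ) = (size_r P).eval (x : ℝ) := by
  unfold ev size_r
  have h : P.map (Int.castRingHom ℝ) = (P.map (Int.castRingHom ℚ)).map (algebraMap ℚ ℝ) := by
    rw [Polynomial.map_map]
    congr 1
  rw [h, eval_map (f := algebraMap ℚ ℝ)]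
  exact (eval₂_at_apply (p := P.map (Int.castRingHom ℚ)) (algebraMap ℚ ℝ) x).symm

lemma size_nat (P : ℤ[X]) (n : ℕ) : (size_r P).eval (n : ℝ) = ((P.eval (n : ℤ) : ℤ) : ℝ) := by
  unfold size_r
  rw [eval_natCast_map]
  rfl

/-- the logarithm of the quotient -/
noncomputable def size_w (P Q : ℤ[X]) (t : ℝ) : ℝ :=
  Real.log (|(size_r P).eval t| / |(size_r Q).eval t|)

lemma size_lim (P Q : ℤ[X]) (hP : P ≠ 0) (hQ : Q ≠ 0) (hd : P.natDegree = Q.natDegree)
    (hlc : |P.leadingCoeff| = |Q.leadingCoeff|)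
    (h : ∃ N : ℕ, ∀ n : ℕ, N ≤ n → |Q.eval (n : ℤ)| < |P.eval (n : ℤ)|) :
    ∃ (k : ℕ) (c : ℝ), 0 < c ∧
      Tendsto (fun t : ℝ => t ^ k * size_w P Q t) atTop (𝓝 c) ∧
      ∀ᶠ t : ℝ in atTop, (size_r P).eval t ≠ 0 ∧ (size_r Q).eval t ≠ 0 := by
  obtain ⟨N, hN⟩ := h
  have hinj : Function.Injective (Int.castRingHom ℝ) := (Int.castRingHom ℝ).injective_int
  set p := size_r P with hp
  set q := size_r Q with hq
  have hp0 : p ≠ 0 := (Polynomial.map_ne_zero_iff hinj).2 hP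
  have hq0 : q ≠ 0 := (Polynomial.map_ne_zero_iff hinj).2 hQ
  have hpd : p.natDegree = P.natDegree := natDegree_map_eq_of_injective hinj P
  have hqd : q.natDegree = Q.natDegree := natDegree_map_eq_of_injective hinj Q
  have hpl : p.leadingCoeff = ((P.leadingCoeff : ℤ) : ℝ) := leadingCoeff_map_of_injective hinj P
  have hql : q.leadingCoeff = ((Q.leadingCoeff : ℤ) : ℝ) := leadingCoeff_map_of_injective hinj Q
  have hnz : ∀ F : ℝ[X], F ≠ 0 → ∀ᶠ t : ℝ in atTop, F.eval t ≠ 0 := by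
    intro F hF
    have h1 : {y : ℝ | F.eval y = 0}.Finite := by
      refine (F.roots.toFinset.finite_toSet).subset fun y hy => ?_
      rw [Finset.mem_coe, Multiset.mem_toFinset, mem_roots hF]
      exact hy
    obtain ⟨M, hM⟩ := h1.bddAbove
    filter_upwards [eventually_gt_atTop M] with y hy hcon
    exact absurd (hM hcon) (not_le.2 hy)
  set R := p ^ 2 - q ^ 2 with hR
  have hRn : ∀ n : ℕ, N ≤ n → 0 < R.eval (n : ℝ) := by
    intro n hn
    have h1 := hN n hn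
    have h2 : (|(Q.eval (n : ℤ) : ℤ)| : ℝ) < |((P.eval (n : ℤ) : ℤ) : ℝ)| := by exact_mod_cast h1
    have h3 := sq_lt_sq.2 h2
    rw [hR, eval_sub, eval_pow, eval_pow, hp, hq, size_nat, size_nat]
    linarith
  have hR0 : R ≠ 0 := by
    intro hcon
    have := hRn N le_rfl
    rw [hcon, eval_zero] at this
    exact lt_irrefl _ this
  have hp2 : p ^ 2 ≠ 0 := pow_ne_zero 2 hp0
  have hq2 : q ^ 2 ≠ 0 := pow_ne_zero 2 hq0
  have hl2 : (p ^ 2).leadingCoeff = (q ^ 2).leadingCoeff := by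
    rw [leadingCoeff_pow, leadingCoeff_pow, hpl, hql, ← sq_abs, ← sq_abs ((Q.leadingCoeff : ℤ) : ℝ)]
    congr 1
    exact_mod_cast hlc
  have hdd : (p ^ 2).degree = (q ^ 2).degree := by
    rw [degree_eq_natDegree hp2, degree_eq_natDegree hq2, natDegree_pow, natDegree_pow, hpd, hqd, hd]
  have hlt : R.degree < (p ^ 2).degree := degree_sub_lt_left hdd hp2 hl2
  rw [hdd] at hlt
  have hlt' : R.natDegree < (q ^ 2).natDegree := natDegree_lt_natDegree hR0 hlt
  obtain ⟨k, hk⟩ : ∃ k, k = (q ^ 2).natDegree - R.natDegree := ⟨_, rfl⟩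
  have hk0 : k ≠ 0 := by omega
  have hXR : X ^ k * R ≠ 0 := mul_ne_zero (pow_ne_zero _ X_ne_zero) hR0
  have hdeg : (X ^ k * R).degree = (q ^ 2).degree := by
    rw [degree_eq_natDegree hXR, degree_eq_natDegree hq2, natDegree_X_pow_mul _ hR0]
    congr 1
    omega
  have hlim := div_tendsto_atTop_leadingCoeff_div_of_degree_eq (X ^ k * R) (q ^ 2) hdeg
  set c := (X ^ k * R).leadingCoeff / (q ^ 2).leadingCoeff with hc
  have hcne : c ≠ 0 := div_ne_zero (leadingCoeff_ne_zero.2 hXR) (leadingCoeff_ne_zero.2 hq2)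
  obtain ⟨f, hf⟩ : ∃ f : ℝ → ℝ, ∀ t, f t = R.eval t / (q.eval t) ^ 2 := ⟨_, fun _ => rfl⟩
  have hlim' : Tendsto (fun t : ℝ => t ^ k * f t) atTop (𝓝 c) := by
    refine hlim.congr fun t => ?_
    rw [hf, eval_mul, eval_pow, eval_X, eval_pow, mul_div_assoc]
  have hc0 : 0 < c := by
    refine lt_of_le_of_ne ?_ hcne.symm
    refine ge_of_tendsto (hlim'.comp tendsto_natCast_atTop_atTop) ?_
    filter_upwards [eventually_ge_atTop N] with n hn
    have h1 := hRn n hn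
    simp only [Function.comp_apply, hf]
    positivity
  have hf0 : Tendsto f atTop (𝓝 0) := by
    have h1 : Tendsto (fun t : ℝ => (t ^ k)⁻¹) atTop (𝓝 0) := (tendsto_pow_atTop hk0).inv_tendsto_atTop
    have h2 := hlim'.mul h1
    rw [mul_zero] at h2
    refine h2.congr' ?_
    filter_upwards [eventually_gt_atTop 0] with t ht
    have : t ^ k ≠ 0 := by positivity
    field_simp
  have hne := (hnz p hp0).and (hnz q hq0)
  refine ⟨k, c / 2, by positivity, ?_, hne⟩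
  have hlow : Tendsto (fun t : ℝ => t ^ k * f t / (1 + f t) / 2) atTop (𝓝 (c / 2)) := by
    have h1 : Tendsto (fun t : ℝ => 1 + f t) atTop (𝓝 (1 + 0)) := tendsto_const_nhds.add hf0
    rw [add_zero] at h1
    have h2 := (hlim'.div h1 one_ne_zero).div_const 2
    rw [div_one] at h2
    exact h2
  have hup : Tendsto (fun t : ℝ => t ^ k * f t / 2) atTop (𝓝 (c / 2)) := hlim'.div_const 2
  have hev1 : ∀ᶠ t : ℝ in atTop, -1 < f t := hf0.eventually_const_lt (by norm_num)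
  have hw : ∀ t : ℝ, p.eval t ≠ 0 → q.eval t ≠ 0 → -1 < f t →
      size_w P Q t = Real.log (1 + f t) / 2 := by
    intro t h1 h2 h3
    have h4 : 1 + f t = (|p.eval t| / |q.eval t|) ^ 2 := by
      rw [hf, div_pow, sq_abs, sq_abs, hR, eval_sub, eval_pow, eval_pow]
      field_simp
      ring
    rw [h4, Real.log_pow]
    unfold size_w
    push_cast
    ring
  refine tendsto_of_tendsto_of_tendsto_of_le_of_le' hlow hup ?_ ?_
  · filter_upwards [hne, hev1, eventually_gt_atTop 0] with t h1 h2 h3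
    rw [hw t h1.1 h1.2 h2]
    have h4 : 0 < 1 + f t := by linarith
    have h5 := Real.one_sub_inv_le_log_of_pos h4
    have h6 : f t / (1 + f t) = 1 - (1 + f t)⁻¹ := by
      field_simp
      ring
    have h7 : 0 < t ^ k := by positivity
    have h8 : t ^ k * f t / (1 + f t) / 2 = t ^ k * (f t / (1 + f t) / 2) := by ring
    rw [h8]
    refine mul_le_mul_of_nonneg_left ?_ h7.le
    rw [h6]
    linarith
  · filter_upwards [hne, hev1, eventually_gt_atTop 0] with t h1 h2 h3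
    rw [hw t h1.1 h1.2 h2]
    have h4 : 0 < 1 + f t := by linarith
    have h5 := Real.log_le_sub_one_of_pos h4
    have h7 : 0 < t ^ k := by positivity
    have h8 : t ^ k * f t / 2 = t ^ k * (f t / 2) := by ring
    rw [h8]
    refine mul_le_mul_of_nonneg_left ?_ h7.le
    linarith

lemma size_blk (P Q : ℤ[X]) (x : ℚ) (m n : ℕ) (hx : (size_r P).eval (x : ℝ) ≠ 0)
    (hx' : (size_r Q).eval (x : ℝ) ≠ 0)
    (hj : ∀ j ∈ Finset.Ico m n, (size_r P).eval (j : ℝ) ≠ 0 ∧ (size_r Q).eval (j : ℝ) ≠ 0)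
    (h : Blk P Q x m n) :
    size_w P Q (x : ℝ) = ∑ j ∈ Finset.Ico m n, size_w P Q (j : ℝ) := by
  unfold Blk at h
  have h1 := congrArg (fun z : ℚ => ((z : ℚ) : ℝ)) h
  simp only [Rat.cast_mul, Rat.cast_prod, size_ev, Rat.cast_natCast] at h1
  have h2 := congrArg (fun z : ℝ => Real.log |z|) h1
  simp only [abs_mul, Finset.abs_prod] at h2
  have e1 : ∏ j ∈ Finset.Ico m n, |(size_r Q).eval (j : ℝ)| ≠ 0 :=
    Finset.prod_ne_zero_iff.2 fun j hj' => abs_ne_zero.2 (hj j hj').2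
  have e2 : ∏ j ∈ Finset.Ico m n, |(size_r P).eval (j : ℝ)| ≠ 0 :=
    Finset.prod_ne_zero_iff.2 fun j hj' => abs_ne_zero.2 (hj j hj').1
  rw [Real.log_mul (abs_ne_zero.2 hx) e1, Real.log_mul (abs_ne_zero.2 hx') e2,
    Real.log_prod fun j hj' => abs_ne_zero.2 (hj j hj').2,
    Real.log_prod fun j hj' => abs_ne_zero.2 (hj j hj').1] at h2
  have h3 : ∀ j ∈ Finset.Ico m n, size_w P Q (j : ℝ) =
      Real.log |(size_r P).eval (j : ℝ)| - Real.log |(size_r Q).eval (j : ℝ)| := fun j hj' =>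
    Real.log_div (abs_ne_zero.2 (hj j hj').1) (abs_ne_zero.2 (hj j hj').2)
  rw [Finset.sum_congr rfl h3, Finset.sum_sub_distrib]
  unfold size_w
  rw [Real.log_div (abs_ne_zero.2 hx) (abs_ne_zero.2 hx')]
  linarith

theorem size : S_SIZE := by
  intro P Q hP hQ hd hlc hN M hM
  obtain ⟨k, c, hc, hlim, hne⟩ := size_lim P Q hP hQ hd hlc hN
  have hMr : (1 : ℝ) ≤ M := by exact_mod_cast hM
  obtain ⟨η, hη⟩ : ∃ η : ℝ, η = 1 / (6 * M) := ⟨_, rfl⟩
  have hη0 : 0 < η := by rw [hη]; positivity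
  have hηM : 6 * η * M = 1 := by
    rw [hη]
    field_simp
  have hη1 : η ≤ 1 / 6 := by nlinarith
  have hev1 := hlim.eventually_const_lt (show (1 - η) * c < c by nlinarith)
  have hev2 := hlim.eventually_lt_const (show c < (1 + η) * c by nlinarith)
  have hev3 : ∀ᶠ t : ℝ in atTop, (1 + 1 / t) ^ k < 1 + η := by
    have h1 : Tendsto (fun t : ℝ => (1 + 1 / t) ^ k) atTop (𝓝 ((1 + 0) ^ k)) := by
      refine (tendsto_const_nhds.add ?_).pow k
      exact (tendsto_inv_atTop_zero (𝕜 := ℝ)).congr fun t => (one_div t).symm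
    rw [add_zero, one_pow] at h1
    exact h1.eventually_lt_const (by linarith)
  obtain ⟨T, hT⟩ := eventually_atTop.1 ((hev1.and hev2).and (hev3.and (hne.and (eventually_ge_atTop 1))))
  obtain ⟨X₀, hX⟩ := exists_nat_ge T
  refine ⟨X₀, fun x l m n hx hl hlm hmn h1 h2 => ?_⟩
  have hxr : T ≤ (x : ℝ) := hX.trans (by exact_mod_cast hx)
  have hjr : ∀ j : ℕ, X₀ ≤ j → T ≤ (j : ℝ) := fun j hj => hX.trans (by exact_mod_cast hj)
  obtain ⟨⟨a1, a2⟩, a3, a4, a5⟩ := hT x hxr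
  obtain ⟨⟨b1, b2⟩, b3, b4, b5⟩ := hT (x + 1) (by linarith)
  obtain ⟨w, hw⟩ : ∃ w : ℝ → ℝ, w = size_w P Q := ⟨_, rfl⟩
  have s1 : w x = ∑ j ∈ Finset.Ico l m, w (j : ℝ) := by
    rw [hw]
    exact size_blk P Q x l m a4.1 a4.2 (fun j hj => (hT j (hjr j (by
      rw [Finset.mem_Ico] at hj; omega))).2.2.1) h1
  have s2 : w (x + 1) = ∑ j ∈ Finset.Ico m n, w (j : ℝ) := by
    rw [hw]
    have := size_blk P Q (x + 1) m n (by push_cast; exact b4.1) (by push_cast; exact b4.2)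
      (fun j hj => (hT j (hjr j (by rw [Finset.mem_Ico] at hj; omega))).2.2.1) h2
    push_cast at this
    exact this
  have hm0 : (0 : ℝ) < m := by
    have := (hT m (hjr m (by omega))).2.2.2
    linarith
  have hmk : (0 : ℝ) < (m : ℝ) ^ k := by positivity
  have t1 : ((m : ℝ) - l) * ((1 - η) * c / (m : ℝ) ^ k) ≤ w x := by
    rw [s1]
    have h3 : ∀ j ∈ Finset.Ico l m, (1 - η) * c / (m : ℝ) ^ k ≤ w (j : ℝ) := by
      intro j hj
      rw [Finset.mem_Ico] at hj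
      obtain ⟨⟨c1, -⟩, -, -, c5⟩ := hT j (hjr j (by omega))
      have c6 : (0 : ℝ) < (j : ℝ) ^ k := by positivity
      have c7 : (j : ℝ) ^ k ≤ (m : ℝ) ^ k :=
        pow_le_pow_left₀ (by positivity) (by exact_mod_cast hj.2.le) k
      calc (1 - η) * c / (m : ℝ) ^ k ≤ (1 - η) * c / (j : ℝ) ^ k :=
            div_le_div_of_nonneg_left (mul_nonneg (by linarith) hc.le) c6 c7
        _ ≤ w j := by
            rw [div_le_iff₀ c6, hw, mul_comm (size_w P Q j)]
            exact c1.le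
    have h4 := Finset.card_nsmul_le_sum _ _ _ h3
    rw [Nat.card_Ico, nsmul_eq_mul, Nat.cast_sub hlm.le] at h4
    exact h4
  have t2 : w (x + 1) ≤ ((n : ℝ) - m) * ((1 + η) * c / (m : ℝ) ^ k) := by
    rw [s2]
    have h3 : ∀ j ∈ Finset.Ico m n, w (j : ℝ) ≤ (1 + η) * c / (m : ℝ) ^ k := by
      intro j hj
      rw [Finset.mem_Ico] at hj
      obtain ⟨⟨-, c2⟩, -, -, c5⟩ := hT j (hjr j (by omega))
      have c6 : (0 : ℝ) < (j : ℝ) ^ k := by positivity
      have c7 : (m : ℝ) ^ k ≤ (j : ℝ) ^ k :=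
        pow_le_pow_left₀ (by positivity) (by exact_mod_cast hj.1) k
      calc w j ≤ (1 + η) * c / (j : ℝ) ^ k := by
            rw [le_div_iff₀ c6, hw, mul_comm (size_w P Q j)]
            exact c2.le
        _ ≤ (1 + η) * c / (m : ℝ) ^ k :=
            div_le_div_of_nonneg_left (mul_nonneg (by linarith) hc.le) hmk c7
    have h4 := Finset.sum_le_card_nsmul _ _ _ h3
    rw [Nat.card_Ico, nsmul_eq_mul, Nat.cast_sub hmn.le] at h4
    exact h4
  have hx0 : (0 : ℝ) < x := by linarith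
  have hxk : (0 : ℝ) < (x : ℝ) ^ k := by positivity
  rw [← hw] at a1 a2 b1 b2
  have t3 : (1 - η) * w x ≤ (1 + η) * (1 + η) * w (x + 1) := by
    have h3 : (0 : ℝ) < w (x + 1) := by
      have h4 : (0 : ℝ) < (x + 1 : ℝ) ^ k := by positivity
      by_contra hcon
      push Not at hcon
      have h5 : (x + 1 : ℝ) ^ k * w (x + 1) ≤ 0 := mul_nonpos_of_nonneg_of_nonpos h4.le hcon
      have h6 : 0 < (1 - η) * c := mul_pos (by linarith) hc
      linarith
    have h4 : (x : ℝ) ^ k * ((1 - η) * w x) ≤ (x : ℝ) ^ k * ((1 + η) * (1 + η) * w (x + 1)) := by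
      have h5 : (1 + 1 / (x : ℝ)) ^ k * (x : ℝ) ^ k = (x + 1 : ℝ) ^ k := by
        rw [← mul_pow]
        congr 1
        field_simp
      calc (x : ℝ) ^ k * ((1 - η) * w x) = (1 - η) * ((x : ℝ) ^ k * w x) := by ring
        _ ≤ (1 - η) * ((1 + η) * c) := mul_le_mul_of_nonneg_left a2.le (by linarith)
        _ = (1 + η) * ((1 - η) * c) := by ring
        _ ≤ (1 + η) * ((x + 1 : ℝ) ^ k * w (x + 1)) := mul_le_mul_of_nonneg_left b1.le (by linarith)
        _ = (1 + η) * (1 + 1 / (x : ℝ)) ^ k * ((x : ℝ) ^ k * w (x + 1)) := by rw [← h5]; ring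
        _ ≤ (1 + η) * (1 + η) * ((x : ℝ) ^ k * w (x + 1)) := by
            refine mul_le_mul_of_nonneg_right ?_ (by positivity)
            exact mul_le_mul_of_nonneg_left a3.le (by linarith)
        _ = _ := by ring
    exact le_of_mul_le_mul_left h4 hxk
  have hml : (0 : ℝ) < (m : ℝ) - l := by
    have : (l : ℝ) < m := by exact_mod_cast hlm
    linarith
  have hnm : (0 : ℝ) < (n : ℝ) - m := by
    have : (m : ℝ) < n := by exact_mod_cast hmn
    linarith
  have t4 : (1 - η) ^ 2 * ((m : ℝ) - l) ≤ (1 + η) ^ 3 * ((n : ℝ) - m) := by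
    have hcm : 0 < c / (m : ℝ) ^ k := by positivity
    refine le_of_mul_le_mul_right ?_ hcm
    calc (1 - η) ^ 2 * ((m : ℝ) - l) * (c / (m : ℝ) ^ k) =
          (1 - η) * (((m : ℝ) - l) * ((1 - η) * c / (m : ℝ) ^ k)) := by ring
      _ ≤ (1 - η) * w x := mul_le_mul_of_nonneg_left t1 (by linarith)
      _ ≤ (1 + η) * (1 + η) * w (x + 1) := t3
      _ ≤ (1 + η) * (1 + η) * (((n : ℝ) - m) * ((1 + η) * c / (m : ℝ) ^ k)) :=
          mul_le_mul_of_nonneg_left t2 (by positivity)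
      _ = _ := by ring
  have t5 : ((M : ℝ) - 1) * (1 + η) ^ 3 ≤ M * (1 - η) ^ 2 := by
    have e1 : (1 + η) ^ 3 ≤ 1 + 4 * η := by nlinarith
    have e2 : 1 - 2 * η ≤ (1 - η) ^ 2 := by nlinarith
    calc ((M : ℝ) - 1) * (1 + η) ^ 3 ≤ ((M : ℝ) - 1) * (1 + 4 * η) :=
          mul_le_mul_of_nonneg_left e1 (by linarith)
      _ ≤ M * (1 - 2 * η) := by nlinarith
      _ ≤ _ := mul_le_mul_of_nonneg_left e2 (by linarith)
  have t6 : ((M : ℝ) - 1) * ((m : ℝ) - l) ≤ M * ((n : ℝ) - m) := by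
    have e3 : 0 < (1 - η) ^ 2 := by
      have : 0 < 1 - η := by linarith
      positivity
    refine le_of_mul_le_mul_left ?_ e3
    calc (1 - η) ^ 2 * (((M : ℝ) - 1) * ((m : ℝ) - l)) =
          ((M : ℝ) - 1) * ((1 - η) ^ 2 * ((m : ℝ) - l)) := by ring
      _ ≤ ((M : ℝ) - 1) * ((1 + η) ^ 3 * ((n : ℝ) - m)) :=
          mul_le_mul_of_nonneg_left t4 (by linarith)
      _ = ((M : ℝ) - 1) * (1 + η) ^ 3 * ((n : ℝ) - m) := by ring
      _ ≤ M * (1 - η) ^ 2 * ((n : ℝ) - m) := mul_le_mul_of_nonneg_right t5 hnm.le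
      _ = _ := by ring
  exact_mod_cast t6

end Pool.Agent.K9h58.SH
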