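import Pool.Agent.K9h58.SH.Stm2
import Pool.Agent.K9h58.SH.Size

set_option autoImplicit false

open Polynomial Filter Topology

namespace Pool.Agent.K9h58.SH

lemma size2_zero (P Q : ℤ[X]) (hP : P ≠ 0) (hQ : Q ≠ 0) (hd : P.natDegree = Q.natDegree)
    (hlc : |P.leadingCoeff| = |Q.leadingCoeff|) : Tendsto (size_w P Q) atTop (𝓝 0) := by
  have hinj : Function.Injective (Int.castRingHom ℝ) := (Int.castRingHom ℝ).injective_int
  have hp0 : size_r P ≠ 0 := (Polynomial.map_ne_zero_iff hinj).2 hP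
  have hq0 : size_r Q ≠ 0 := (Polynomial.map_ne_zero_iff hinj).2 hQ
  have hpd : (size_r P).natDegree = P.natDegree := natDegree_map_eq_of_injective hinj P
  have hqd : (size_r Q).natDegree = Q.natDegree := natDegree_map_eq_of_injective hinj Q
  have hpl : (size_r P).leadingCoeff = ((P.leadingCoeff : ℤ) : ℝ) :=
    leadingCoeff_map_of_injective hinj P
  have hql : (size_r Q).leadingCoeff = ((Q.leadingCoeff : ℤ) : ℝ) :=
    leadingCoeff_map_of_injective hinj Q
  have hdd : (size_r P).degree = (size_r Q).degree := by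
    rw [degree_eq_natDegree hp0, degree_eq_natDegree hq0, hpd, hqd, hd]
  have h1 := (div_tendsto_atTop_leadingCoeff_div_of_degree_eq (size_r P) (size_r Q) hdd).abs
  have h3 : |(size_r P).leadingCoeff / (size_r Q).leadingCoeff| = 1 := by
    have h4 : (|((P.leadingCoeff : ℤ) : ℝ)|) = |((Q.leadingCoeff : ℤ) : ℝ)| := by
      exact_mod_cast hlc
    rw [abs_div, hpl, hql, h4]
    refine div_self (abs_ne_zero.2 ?_)
    exact_mod_cast leadingCoeff_ne_zero.2 hQ
  rw [h3] at h1
  have h4 := (Real.continuousAt_log one_ne_zero).tendsto.comp h1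
  rw [Real.log_one] at h4
  refine h4.congr fun t => ?_
  simp only [Function.comp_apply, abs_div]
  rfl

lemma size2_tel (n M : ℕ) (hn : 2 ≤ n) (hM : n ≤ M) :
    ∑ j ∈ Finset.Ico n M, 1 / (j : ℝ) ^ 2 ≤ 1 / ((n : ℝ) - 1) - 1 / ((M : ℝ) - 1) := by
  induction M, hM using Nat.le_induction with
  | base => simp
  | succ M hM ih =>
    rw [Finset.sum_Ico_succ_top hM]
    have h1 : (2 : ℝ) ≤ M := by exact_mod_cast hn.trans hM
    have h2 : 1 / (M : ℝ) ^ 2 ≤ 1 / ((M : ℝ) - 1) - 1 / (((M + 1 : ℕ) : ℝ) - 1) := by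
      have e : ((M + 1 : ℕ) : ℝ) - 1 = M := by push_cast; ring
      have e1 : (0 : ℝ) < (M : ℝ) - 1 := by linarith
      have e2 : (0 : ℝ) < M := by linarith
      rw [e, div_sub_div _ _ e1.ne' e2.ne', div_le_div_iff₀ (by positivity) (by positivity)]
      nlinarith
    linarith

theorem size2 : S_SIZE2 := by
  intro P Q hP hQ hd hlc hN
  obtain ⟨k, c, hc, hlim, hne⟩ := size_lim P Q hP hQ hd hlc hN
  have hk : k ≠ 0 := by
    rintro rfl
    have h1 := size2_zero P Q hP hQ hd hlc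
    have h2 : Tendsto (fun t : ℝ => t ^ 0 * size_w P Q t) atTop (𝓝 0) := by
      simpa using h1
    exact hc.ne' (tendsto_nhds_unique hlim h2)
  obtain ⟨a, ha⟩ : ∃ a : ℝ, a = 2 / 3 * c := ⟨_, rfl⟩
  have ha0 : 0 < a := by rw [ha]; positivity
  have hev1 := hlim.eventually_const_lt (show a < c by rw [ha]; linarith)
  have hev2 := hlim.eventually_lt_const (show c < 2 * a by rw [ha]; linarith)
  obtain ⟨K, hK⟩ : ∃ K : ℕ, K = 4 ^ (k + 2) + 2 := ⟨_, rfl⟩
  have hK2 : 2 ≤ K := by
    rw [hK]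
    exact Nat.le_add_left 2 _
  have hev3 : ∀ᶠ t : ℝ in atTop, (1 + K / t) ^ k < 2 := by
    have h1 : Tendsto (fun t : ℝ => (1 + K / t) ^ k) atTop (𝓝 ((1 + 0) ^ k)) :=
      (tendsto_const_nhds.add (tendsto_const_nhds.div_atTop tendsto_id)).pow k
    rw [add_zero, one_pow] at h1
    exact h1.eventually_lt_const (by norm_num)
  obtain ⟨T, hT⟩ := eventually_atTop.1
    ((hev1.and hev2).and (hev3.and (hne.and (eventually_ge_atTop 9))))
  obtain ⟨X₀, hX⟩ := exists_nat_ge T
  refine ⟨K, 4 ^ (k + 1), X₀, fun x ν hx hν h => ?_⟩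
  have hxr : T ≤ (x : ℝ) := hX.trans (by exact_mod_cast hx)
  have hjr : ∀ j : ℕ, X₀ ≤ j → T ≤ (j : ℝ) := fun j hj => hX.trans (by exact_mod_cast hj)
  obtain ⟨w, hw⟩ : ∃ w : ℝ → ℝ, w = size_w P Q := ⟨_, rfl⟩
  have hpos : ∀ t : ℝ, T ≤ t → 0 < t := fun t ht => by linarith [(hT t ht).2.2.2]
  have hlow : ∀ t : ℝ, T ≤ t → a / t ^ k ≤ w t := by
    intro t ht
    have h1 : 0 < t ^ k := pow_pos (hpos t ht) k
    rw [div_le_iff₀ h1, hw, mul_comm (size_w P Q t)]
    exact (hT t ht).1.1.le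
  have hup : ∀ t : ℝ, T ≤ t → w t ≤ 2 * a / t ^ k := by
    intro t ht
    have h1 : 0 < t ^ k := pow_pos (hpos t ht) k
    rw [le_div_iff₀ h1, hw, mul_comm (size_w P Q t)]
    exact (hT t ht).1.2.le
  have hw0 : ∀ t : ℝ, T ≤ t → 0 < w t := fun t ht =>
    lt_of_lt_of_le (div_pos ha0 (pow_pos (hpos t ht) k)) (hlow t ht)
  have hmono : ∀ i, i ≤ K + 1 → ν 0 ≤ ν i := by
    intro i
    induction i with
    | zero => exact fun _ => le_rfl
    | succ i ih => exact fun hi => (ih (by omega)).trans (h i (by omega)).1.le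
  have hwi : ∀ i : ℕ, i ≤ K → w (x + i) = ∑ j ∈ Finset.Ico (ν i) (ν (i + 1)), w (j : ℝ) := by
    intro i hi
    rw [hw]
    have hxi : T ≤ (x : ℝ) + i := by
      have : (0 : ℝ) ≤ i := Nat.cast_nonneg i
      linarith
    have h1 := size_blk P Q (x + i) (ν i) (ν (i + 1)) (by push_cast; exact (hT _ hxi).2.2.1.1)
      (by push_cast; exact (hT _ hxi).2.2.1.2) (fun j hj => (hT j (hjr j (by
        rw [Finset.mem_Ico] at hj
        have := hmono i (by omega)
        omega))).2.2.1) (h i hi).2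
    push_cast at h1
    exact h1
  have hsum : ∀ m : ℕ, m ≤ K + 1 → ∑ i ∈ Finset.range m, w (x + i) =
      ∑ j ∈ Finset.Ico (ν 0) (ν m), w (j : ℝ) := by
    intro m
    induction m with
    | zero => simp
    | succ m ih =>
      intro hm
      rw [Finset.sum_range_succ, ih (by omega), hwi m (by omega)]
      exact Finset.sum_Ico_consecutive _ (hmono m (by omega)) (h m (by omega)).1.le
  have hn9 : T ≤ (ν 0 : ℝ) := hjr _ hν
  have hn9' : (9 : ℝ) ≤ (ν 0 : ℝ) := (hT _ hn9).2.2.2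
  obtain ⟨n, hn⟩ : ∃ n : ℕ, n = ν 0 := ⟨_, rfl⟩
  rw [← hn] at hn9 hn9'
  have hn0 : (0 : ℝ) < n := by linarith
  have hx9 : (9 : ℝ) ≤ x := (hT _ hxr).2.2.2
  have hx0 : (0 : ℝ) < x := by linarith
  have hw1 : w (x + 1) ≤ 2 * w x := by
    have h1 : w (x + 1) ≤ 2 * a / (x + 1 : ℝ) ^ k := hup _ (by linarith)
    have h2 : 2 * a / (x + 1 : ℝ) ^ k ≤ 2 * a / (x : ℝ) ^ k :=
      div_le_div_of_nonneg_left (by positivity) (by positivity)
        (pow_le_pow_left₀ hx0.le (by linarith) k)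
    have h3 := hlow x hxr
    have h4 : 2 * a / (x : ℝ) ^ k = 2 * (a / (x : ℝ) ^ k) := by ring
    linarith
  -- the first step
  have hν2 : ν 2 ≤ 4 * n := by
    by_contra hcon
    push Not at hcon
    have h5 : ((3 : ℝ) * n) * (a / (4 * n : ℝ) ^ k) ≤ 3 * w x := by
      have e1 : ∑ j ∈ Finset.Ico n (4 * n), w (j : ℝ) ≤ w x + w (x + 1) := by
        have e2 := hsum 2 (by omega)
        rw [Finset.sum_range_succ, Finset.sum_range_one] at e2
        push_cast at e2
        rw [add_zero] at e2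
        rw [e2, ← hn]
        refine Finset.sum_le_sum_of_subset_of_nonneg (Finset.Ico_subset_Ico le_rfl hcon.le) ?_
        intro j hj _
        rw [Finset.mem_Ico] at hj
        exact (hw0 j (hjr j (by omega))).le
      have e3 : ∀ j ∈ Finset.Ico n (4 * n), a / (4 * n : ℝ) ^ k ≤ w (j : ℝ) := by
        intro j hj
        rw [Finset.mem_Ico] at hj
        have e4 : T ≤ (j : ℝ) := hjr j (by omega)
        refine le_trans ?_ (hlow j e4)
        refine div_le_div_of_nonneg_left ha0.le (pow_pos (hpos j e4) k) ?_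
        refine pow_le_pow_left₀ (hpos j e4).le ?_ k
        exact_mod_cast hj.2.le
      have e5 := Finset.card_nsmul_le_sum _ _ _ e3
      rw [Nat.card_Ico, nsmul_eq_mul, Nat.cast_sub (by omega)] at e5
      push_cast at e5
      have e6 : (4 * (n : ℝ) - n) = 3 * n := by ring
      rw [e6] at e5
      linarith
    have h6 : (n : ℝ) * (a / (4 * n : ℝ) ^ k) ≤ w x := by
      have : ((3 : ℝ) * n) * (a / (4 * n : ℝ) ^ k) = 3 * ((n : ℝ) * (a / (4 * n : ℝ) ^ k)) := by ring
      linarith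
    have h6' := hup x hxr
    obtain hk1 | hk2 : k = 1 ∨ 2 ≤ k := by omega
    · rw [hk1, pow_one] at h6 h6'
      have e1 : (n : ℝ) * (a / (4 * n)) = a / 4 := by
        field_simp
      rw [e1] at h6
      have e2 : a / 4 ≤ 2 * a / x := h6.trans h6'
      rw [div_le_div_iff₀ (by norm_num) hx0] at e2
      nlinarith
    · obtain ⟨l, hl⟩ : ∃ l, k = l + 2 := ⟨k - 2, by omega⟩
      have h7 : ∀ i ∈ Finset.range (K + 1), w x / 4 ≤ w (x + i) := by
        intro i hi
        rw [Finset.mem_range] at hi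
        have hi0 : (0 : ℝ) ≤ i := Nat.cast_nonneg i
        have hiK : (i : ℝ) ≤ K := by exact_mod_cast (show i ≤ K by omega)
        have e1 := hlow (x + i) (by linarith)
        have e2 : (x + i : ℝ) ^ k ≤ 2 * (x : ℝ) ^ k := by
          calc (x + i : ℝ) ^ k ≤ (x + K : ℝ) ^ k := pow_le_pow_left₀ (by linarith) (by linarith) k
            _ = (1 + K / (x : ℝ)) ^ k * (x : ℝ) ^ k := by
                rw [← mul_pow]
                congr 1
                field_simp
            _ ≤ 2 * (x : ℝ) ^ k :=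
                mul_le_mul_of_nonneg_right (hT x hxr).2.1.le (by positivity)
        have e3 : a / (2 * (x : ℝ) ^ k) ≤ a / (x + i : ℝ) ^ k :=
          div_le_div_of_nonneg_left ha0.le (by positivity) e2
        have e4 : a / (2 * (x : ℝ) ^ k) = (2 * a / (x : ℝ) ^ k) / 4 := by
          field_simp
          ring
        linarith
      have h8 := Finset.card_nsmul_le_sum _ _ _ h7
      rw [Finset.card_range, nsmul_eq_mul, hsum (K + 1) le_rfl, ← hn] at h8
      have h9 : ∑ j ∈ Finset.Ico n (ν (K + 1)), w (j : ℝ) ≤ 2 * a / (n : ℝ) ^ l * (2 / n) := by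
        have e1 : ∀ j ∈ Finset.Ico n (ν (K + 1)), w (j : ℝ) ≤
            2 * a / (n : ℝ) ^ l * (1 / (j : ℝ) ^ 2) := by
          intro j hj
          rw [Finset.mem_Ico] at hj
          have e4 : T ≤ (j : ℝ) := hjr j (by omega)
          have e5 : (n : ℝ) ≤ j := by exact_mod_cast hj.1
          have e6 : (n : ℝ) ^ l ≤ (j : ℝ) ^ l := pow_le_pow_left₀ hn0.le e5 l
          have e7 := hpos j e4
          refine (hup j e4).trans ?_
          rw [hl, pow_add, div_mul_div_comm, mul_one]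
          refine div_le_div_of_nonneg_left (by positivity) (by positivity) ?_
          exact mul_le_mul_of_nonneg_right e6 (by positivity)
        refine (Finset.sum_le_sum e1).trans ?_
        rw [← Finset.mul_sum]
        refine mul_le_mul_of_nonneg_left ?_ (by positivity)
        have hn2 : 2 ≤ n := by
          have : (2 : ℝ) ≤ n := by linarith
          exact_mod_cast this
        have hnM : n ≤ ν (K + 1) := by rw [hn]; exact hmono (K + 1) le_rfl
        refine (size2_tel n (ν (K + 1)) hn2 hnM).trans ?_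
        have e8 : (0 : ℝ) ≤ 1 / ((ν (K + 1) : ℝ) - 1) := by
          have : (n : ℝ) ≤ ν (K + 1) := by exact_mod_cast hnM
          refine div_nonneg zero_le_one (by linarith)
        have e9 : 1 / ((n : ℝ) - 1) ≤ 2 / n := by
          rw [div_le_div_iff₀ (by linarith) hn0]
          linarith
        linarith
      have h10 : ((K + 1 : ℕ) : ℝ) * ((n : ℝ) * (a / (4 * n : ℝ) ^ k) / 4) ≤
          2 * a / (n : ℝ) ^ l * (2 / n) := by
        refine le_trans ?_ (h8.trans h9)
        refine mul_le_mul_of_nonneg_left ?_ (Nat.cast_nonneg _)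
        linarith
      have h11 : (n : ℝ) * (a / (4 * n : ℝ) ^ k) / 4 =
          (2 * a / (n : ℝ) ^ l * (2 / n)) / 4 ^ (k + 2) := by
        rw [hl, mul_pow, pow_add (n : ℝ) l 2, show l + 2 + 2 = l + 2 + 1 + 1 by ring,
          pow_succ (4 : ℝ) (l + 2 + 1), pow_succ (4 : ℝ) (l + 2)]
        field_simp
        ring
      obtain ⟨Y, hY⟩ : ∃ Y : ℝ, Y = 2 * a / (n : ℝ) ^ l * (2 / n) := ⟨_, rfl⟩
      have hY0 : 0 < Y := by rw [hY]; positivity
      rw [h11, ← hY, ← mul_div_assoc, div_le_iff₀ (by positivity)] at h10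
      have h12 : ((K + 1 : ℕ) : ℝ) ≤ 4 ^ (k + 2) := by
        refine le_of_mul_le_mul_right ?_ hY0
        linarith
      rw [hK] at h12
      push_cast at h12
      linarith
  -- the second step
  have h1 : ((ν 2 : ℝ) - ν 1) * (a / (4 * n : ℝ) ^ k) ≤ w (x + 1) := by
    have e0 : w (x + 1) = ∑ j ∈ Finset.Ico (ν 1) (ν 2), w (j : ℝ) := by
      have e00 := hwi 1 (by omega)
      push_cast at e00
      exact e00
    rw [e0]
    have e3 : ∀ j ∈ Finset.Ico (ν 1) (ν 2), a / (4 * n : ℝ) ^ k ≤ w (j : ℝ) := by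
      intro j hj
      rw [Finset.mem_Ico] at hj
      have e2 := hmono 1 (by omega)
      have e4 : T ≤ (j : ℝ) := hjr j (by omega)
      refine le_trans ?_ (hlow j e4)
      refine div_le_div_of_nonneg_left ha0.le (pow_pos (hpos j e4) k) ?_
      refine pow_le_pow_left₀ (hpos j e4).le ?_ k
      have e5 : j ≤ 4 * n := by omega
      exact_mod_cast e5
    have e5 := Finset.card_nsmul_le_sum _ _ _ e3
    rw [Nat.card_Ico, nsmul_eq_mul, Nat.cast_sub (h 1 (by omega)).1.le] at e5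
    exact e5
  have h2 : w x ≤ ((ν 1 : ℝ) - ν 0) * (2 * a / (n : ℝ) ^ k) := by
    have e0 : w x = ∑ j ∈ Finset.Ico (ν 0) (ν 1), w (j : ℝ) := by
      have e00 := hwi 0 (by omega)
      push_cast at e00
      rw [add_zero] at e00
      exact e00
    rw [e0]
    have e3 : ∀ j ∈ Finset.Ico (ν 0) (ν 1), w (j : ℝ) ≤ 2 * a / (n : ℝ) ^ k := by
      intro j hj
      rw [Finset.mem_Ico] at hj
      have e4 : T ≤ (j : ℝ) := hjr j (by omega)
      refine (hup j e4).trans ?_
      refine div_le_div_of_nonneg_left (by positivity) (by positivity) ?_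
      refine pow_le_pow_left₀ hn0.le ?_ k
      exact_mod_cast (show n ≤ j by omega)
    have e5 := Finset.sum_le_card_nsmul _ _ _ e3
    rw [Nat.card_Ico, nsmul_eq_mul, Nat.cast_sub (h 0 (by omega)).1.le] at e5
    exact e5
  have h01 : ν 0 < ν 1 := (h 0 (by omega)).1
  have h12 : ν 1 < ν 2 := (h 1 (by omega)).1
  have h3 : ((ν 2 : ℝ) - ν 1) ≤ 4 ^ (k + 1) * ((ν 1 : ℝ) - ν 0) := by
    have e1 : 0 < a / (4 * n : ℝ) ^ k := by positivity
    refine le_of_mul_le_mul_right ?_ e1
    have e2 : 4 ^ (k + 1) * ((ν 1 : ℝ) - ν 0) * (a / (4 * n : ℝ) ^ k) =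
        2 * (((ν 1 : ℝ) - ν 0) * (2 * a / (n : ℝ) ^ k)) := by
      rw [mul_pow, pow_succ]
      field_simp
      ring
    rw [e2]
    linarith
  have h4 : ((ν 2 - ν 1 : ℕ) : ℝ) ≤ ((4 ^ (k + 1) * (ν 1 - ν 0) : ℕ) : ℝ) := by
    push_cast [Nat.cast_sub h12.le, Nat.cast_sub h01.le]
    exact h3
  exact_mod_cast h4

end Pool.Agent.K9h58.SH
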