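import Mathlib

/-!
# Project SH: hypergeometric sequences with `|a (n + 1) / a n| → 1` (MP_28f2cb_lc)

`Q(n) a(n + 1) = P(n) a(n)`. A window is a sequence of indices `ν 0 < ν 1 < ⋯ < ν K` and a rational number `x` with
`Q(x + i) a(ν (i + 1)) = P(x + i) a(ν i)`, i.e. `Blk P Q (x + i) (ν i) (ν (i + 1))`. We show that `x` has a bounded denominator
if the `p`-adic valuation of `a n` is monotone and unbounded for some prime `p`.

All statements only need Mathlib.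
-/

set_option autoImplicit false

open Polynomial

namespace Pool.Agent.K9h58.SH

/-- the value of an integer polynomial at a rational number -/
noncomputable def ev (P : ℤ[X]) (x : ℚ) : ℚ := (P.map (Int.castRingHom ℚ)).eval x

/-- `P(x) / Q(x)` is the product of the `P(j) / Q(j)`, `m ≤ j < n` -/
def Blk (P Q : ℤ[X]) (x : ℚ) (m n : ℕ) : Prop :=
  ev P x * ∏ j ∈ Finset.Ico m n, ev Q (j : ℚ) = ev Q x * ∏ j ∈ Finset.Ico m n, ev P (j : ℚ)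

/-- PADIC. `d + 1` consecutive long gaps are impossible.

Proof. Let `d = natDegree A`, `v = padicValRat p`. If `v (A n₁) < v (B n₁)` and `s = v (A n₁) + 1`, then `v (A j) < v (B j)` for all
`j ≥ N₀`, `j ≡ n₁ mod p ^ s` (`p ^ s` divides `B j` but not `A j`). So the sum `V i` of the `v (B j) - v (A j)`, `ν i ≤ j < ν (i + 1)`, is at
least `R` if `Λ = R * p ^ s`, and by `Blk`: `v (B (x + i)) = v (A (x + i)) + V i`. Let `c` be larger than `v (lc A)` and `v (lc B)`.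
If `v x < - c` then `v (A (x + i)) = v (lc A) + d v(x)` and the same for `B`, so `V i = v (lc B) - v (lc A) < R`, a contradiction.
If `v x ≥ - c` then `v (A (x + i)) ≥ - d c`, so `v (B (x + i)) ≥ R - d c` for `i = 0, …, d`, and
`d ! * lc B = ∑ i ≤ d, (-1) ^ (d - i) * choose d i * B (x + i)` (Mathlib: `Polynomial.fwdDiff_iter_degree_eq_factorial`,
`fwdDiff_iter_eq_sum_shift`) has valuation at least `R - d c`: a contradiction for large `R`. -/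
def S_PADIC : Prop := ∀ (A B : ℤ[X]) (p N₀ : ℕ), p.Prime → A ≠ 0 → B ≠ 0 → A.natDegree = B.natDegree →
  (∀ n : ℕ, N₀ ≤ n → A.eval (n : ℤ) ≠ 0 ∧ B.eval (n : ℤ) ≠ 0 ∧
    padicValInt p (A.eval (n : ℤ)) ≤ padicValInt p (B.eval (n : ℤ))) →
  (∃ n : ℕ, N₀ ≤ n ∧ padicValInt p (A.eval (n : ℤ)) < padicValInt p (B.eval (n : ℤ))) →
  ∃ Λ : ℕ, 0 < Λ ∧ ∀ (x : ℚ) (ν : ℕ → ℕ), N₀ ≤ ν 0 →
    (∀ i, i ≤ A.natDegree → ev A (x + i) ≠ 0 ∧ ev B (x + i) ≠ 0 ∧ ν i + Λ ≤ ν (i + 1) ∧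
      Blk A B (x + i) (ν i) (ν (i + 1))) → False

/-- SIZE. The gaps are almost nondecreasing.

Proof. Let `w t = log |P t / Q t|` and `k = 2 d - natDegree (P ^ 2 - Q ^ 2) ≥ 1`; then `w t * t ^ k` tends to a limit `c > 0` as
`t → ∞` (`w t = log (1 + (P ^ 2 - Q ^ 2) / Q ^ 2) / 2`; Mathlib: `Polynomial.isEquivalent_atTop_div` or
`Polynomial.div_tendsto_leadingCoeff_div_of_degree_eq` applied to `X ^ k * (P ^ 2 - Q ^ 2)` and `Q ^ 2`). So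
`(1 - η) c / t ^ k ≤ w t ≤ (1 + η) c / t ^ k` for large `t`. By `Blk`: `w x = ∑ l ≤ j < m, w j ≥ (m - l) (1 - η) c / m ^ k` and
`w (x + 1) = ∑ m ≤ j < n, w j ≤ (n - m) (1 + η) c / m ^ k`, and `w x / w (x + 1)` is near `1`. -/
def S_SIZE : Prop := ∀ (P Q : ℤ[X]), P ≠ 0 → Q ≠ 0 → P.natDegree = Q.natDegree →
  |P.leadingCoeff| = |Q.leadingCoeff| →
  (∃ N : ℕ, ∀ n : ℕ, N ≤ n → |Q.eval (n : ℤ)| < |P.eval (n : ℤ)|) → ∀ M : ℕ, 0 < M →
  ∃ X₀ : ℕ, ∀ (x : ℚ) (l m n : ℕ), (X₀ : ℚ) ≤ x → X₀ ≤ l → l < m → m < n → Blk P Q x l m → Blk P Q (x + 1) m n →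
    ((M : ℚ) - 1) * (m - l) ≤ M * (n - m)

/-- LINE. A long run of gaps `L` determines `x` up to finitely many possibilities.

Proof. `G(t) = P(x + t) ∏ Q(n + L t + j) - Q(x + t) ∏ P(n + L t + j)`, `j < L`, is a polynomial in `t` of degree at most `d (L + 1)` with
more zeros, so `G = 0`. Put `t = (y - n) / L` with a fixed natural number `y` such that `Q(y + j) ≠ 0` for all `j`: then
`x - n / L + y / L` is a zero of the polynomial `P * C (∏ Q(y + j)) - Q * C (∏ P(y + j))`, which is not zero. -/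
def S_LINE : Prop := ∀ (P Q : ℤ[X]) (d : ℕ), Q ≠ 0 → P.natDegree ≤ d → Q.natDegree ≤ d →
  (∀ c : ℚ, P.map (Int.castRingHom ℚ) ≠ C c * Q.map (Int.castRingHom ℚ)) → ∀ L : ℕ, 0 < L →
  ∃ Z : Finset ℚ, ∀ (x : ℚ) (n : ℕ), (∀ t : ℕ, t ≤ d * (L + 1) → Blk P Q (x + t) (n + t * L) (n + (t + 1) * L)) →
    x - n / L ∈ Z

/-- WIN. The rational numbers recovered from windows have bounded denominators. -/
def S_WIN : Prop := ∀ (P Q : ℤ[X]), P ≠ 0 → Q ≠ 0 → P.natDegree = Q.natDegree →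
  |P.leadingCoeff| = |Q.leadingCoeff| → (∃ N : ℕ, ∀ n : ℕ, N ≤ n → |Q.eval (n : ℤ)| < |P.eval (n : ℤ)|) →
  ∀ p : ℕ, p.Prime →
  ((∃ N : ℕ, (∀ n : ℕ, N ≤ n → padicValInt p (P.eval (n : ℤ)) ≤ padicValInt p (Q.eval (n : ℤ))) ∧
      ∀ N' : ℕ, ∃ n, N' ≤ n ∧ padicValInt p (P.eval (n : ℤ)) < padicValInt p (Q.eval (n : ℤ))) ∨
    (∃ N : ℕ, (∀ n : ℕ, N ≤ n → padicValInt p (Q.eval (n : ℤ)) ≤ padicValInt p (P.eval (n : ℤ))) ∧
      ∀ N' : ℕ, ∃ n, N' ≤ n ∧ padicValInt p (Q.eval (n : ℤ)) < padicValInt p (P.eval (n : ℤ)))) →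
  ∃ K X₀ D : ℕ, 0 < D ∧ ∀ (x : ℚ) (ν : ℕ → ℕ), (X₀ : ℚ) ≤ x → X₀ ≤ ν 0 →
    (∀ i, i < K → ν i < ν (i + 1) ∧ Blk P Q (x + i) (ν i) (ν (i + 1))) → ∃ z : ℤ, D * x = z

end Pool.Agent.K9h58.SH
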