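import Pool.Agent.K9h58.SH.Stm

/-!
# Project SH, second part: no monotonicity of the valuations

It is enough that `v_p (a n)` is not `o(n)` for some prime `p`.
-/

set_option autoImplicit false

open Polynomial

namespace Pool.Agent.K9h58.SH

/-- the `p`-adic valuation of the product of the `B(j) / A(j)`, `m ≤ j < n` -/
def VV (p : ℕ) (A B : ℤ[X]) (m n : ℕ) : ℤ :=
  ∑ j ∈ Finset.Ico m n, ((padicValInt p (B.eval (j : ℤ)) : ℤ) - padicValInt p (A.eval (j : ℤ)))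

/-- LAG. Integers at which a polynomial is divisible by a high power of `p` are close to each other or far apart.

Proof. Lagrange interpolation: with `d = natDegree F`, `lc F = ∑ l, F (y l) / ∏ m ≠ l, (y l - y m)` for distinct rational numbers
`y 0, …, y d`. If all `y l = x + z l` with integers `z l`, then `y l - y m = z l - z m`, so
`padicValRat p (lc F) ≥ min (v (F (y l)) - v (∏ (z l - z m)))` and `v (∏ (z l - z m)) ≤ log_p (W ^ d)` if `|z l - z m| ≤ W`. -/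
def S_LAG : Prop := ∀ (F : ℤ[X]) (p : ℕ), p.Prime → F ≠ 0 → ∀ (x : ℚ) (z : Fin (F.natDegree + 1) → ℤ) (W h : ℕ),
  Function.Injective z → (∀ l m, |z l - z m| ≤ W) →
  (∀ l, ev F (x + z l) = 0 ∨ (h : ℤ) ≤ padicValRat p (ev F (x + z l))) →
  p ^ h ≤ F.leadingCoeff.natAbs * W ^ F.natDegree

/-- TAIL. The high powers of `p` contribute little, up to the highest one.

Proof. Let `d = natDegree F ≥ 1` (the case `d = 0` is easy). `N k` := the number of the `j` in the block with `p ^ k ∣ F j`. By `S_LAG` (with `x = 0`)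
there are no `d + 1` such `j` in an interval of length `W` with `|lc F| W ^ d < p ^ k`; so `N k ≤ d ((n - m) / W + 1)` for all these
`W`; take `W = p ^ s`, `s = (k - e) / d` where `|lc F| < p ^ e`. The left side is
`∑ k₀ < k ≤ H, N k ≤ ∑ k₀ < k ≤ H, d ((n - m) / p ^ s(k) + 1) ≤ ε (n - m) + d H` for large `k₀`. -/
def S_TAIL : Prop := ∀ (F : ℤ[X]) (p : ℕ), p.Prime → F ≠ 0 → ∀ ε : ℝ, 0 < ε → ∃ k₀ C : ℕ, ∀ k₁ : ℕ, k₀ ≤ k₁ → ∀ m n H : ℕ, m ≤ n →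
  (∀ j ∈ Finset.Ico m n, F.eval (j : ℤ) ≠ 0 ∧ padicValInt p (F.eval (j : ℤ)) ≤ H) →
  ((∑ j ∈ Finset.Ico m n, (padicValInt p (F.eval (j : ℤ)) - min (padicValInt p (F.eval (j : ℤ))) k₁) : ℕ) : ℝ) ≤
    ε * (n - m) + C * (1 + H)

/-- GAIN. A long block has a valuation of linear size or contains a number at which `A` or `B` is divisible by a very high power.

Proof. Choose `k₁` by `S_TAIL` for `A`, `B` and `ε / 16`. `T j = min (v (B j)) k₁ - min (v (A j)) k₁` has the period `p ^ k₁`, so its sum over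
a block of length `g` is `τ g + O(k₁ p ^ k₁)` with the mean `τ`, and `|VV m n - τ (n - m)| ≤ ε / 8 (n - m) + C' (1 + H)` where `H` is the largest
valuation in the block. For `m = N₀` and the `n` of the hypothesis `H = O(log n)` (`p ^ v ≤ |F j| ≤ C j ^ d`), so `|τ| ≥ ε / 2`; hence for every block
`|VV m n| + C' (1 + H) ≥ (ε / 4) (n - m)`. -/
def S_GAIN : Prop := ∀ (A B : ℤ[X]) (p N₀ : ℕ), p.Prime → A ≠ 0 → B ≠ 0 →
  (∀ n : ℕ, N₀ ≤ n → A.eval (n : ℤ) ≠ 0 ∧ B.eval (n : ℤ) ≠ 0) →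
  (∃ ε : ℝ, 0 < ε ∧ ∀ N' : ℕ, ∃ n, N' ≤ n ∧ ε * n ≤ |(VV p A B N₀ n : ℝ)|) →
  ∃ c Λ : ℕ, 0 < c ∧ ∀ m n : ℕ, N₀ ≤ m → m + Λ ≤ n →
    ((n : ℤ) - m ≤ c * |VV p A B m n|) ∨
    ∃ j ∈ Finset.Ico m n, n - m ≤ c * (padicValInt p (A.eval (j : ℤ)) + padicValInt p (B.eval (j : ℤ)))

/-- PAD2. `4 d + 3` consecutive long gaps of comparable lengths are impossible.

Proof. `K = 4 d + 3`, `v = padicValRat p`, `V i = VV (ν i) (ν (i + 1))`, `g i = ν (i + 1) - ν i`; by `Blk`: `v (B (x + i)) - v (A (x + i)) = V i`. As in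
S_PADIC (the case `v x < - e` gives `V i = v (lc B) - v (lc A)`, otherwise `v (A (x + i)), v (B (x + i)) ≥ - d e`) and by S_LAG with `z l = i_l`, `W = K`:
`V i ≥ R` for at most `d` of the `i < K`, and the same for `V i ≤ - R`, for a constant `R`. For the other (at least `2 d + 3`) `i` the
second alternative of GAIN holds (if `Λ' > c R`): there is `j_i` in the block with `v (A j_i)` or `v (B j_i)` at least `g i / (2 c) ≥ g 0 / (4 c)`. For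
`d + 1` of them it is the same polynomial `F`, and S_LAG with `x = 0`, `z l = j_{i_l}`, `W = K C g 0` gives
`p ^ (g 0 / (4 c) - 1) ≤ |lc F| (K C g 0) ^ d`, which is false for large `g 0`. -/
def S_PAD2 : Prop := ∀ (A B : ℤ[X]) (p N₀ : ℕ), p.Prime → A ≠ 0 → B ≠ 0 → A.natDegree = B.natDegree →
  (∀ n : ℕ, N₀ ≤ n → A.eval (n : ℤ) ≠ 0 ∧ B.eval (n : ℤ) ≠ 0) →
  (∃ c Λ : ℕ, 0 < c ∧ ∀ m n : ℕ, N₀ ≤ m → m + Λ ≤ n → ((n : ℤ) - m ≤ c * |VV p A B m n|) ∨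
    ∃ j ∈ Finset.Ico m n, n - m ≤ c * (padicValInt p (A.eval (j : ℤ)) + padicValInt p (B.eval (j : ℤ)))) →
  ∀ C : ℕ, ∃ Λ' : ℕ, 0 < Λ' ∧ ∀ (x : ℚ) (ν : ℕ → ℕ), N₀ ≤ ν 0 →
    (∀ i, i < 4 * A.natDegree + 3 → ev A (x + i) ≠ 0 ∧ ev B (x + i) ≠ 0 ∧ ν i + Λ' ≤ ν (i + 1) ∧
      Blk A B (x + i) (ν i) (ν (i + 1)) ∧ ν (i + 1) - ν i ≤ C * (ν 1 - ν 0) ∧ ν 1 - ν 0 ≤ 2 * (ν (i + 1) - ν i)) → False

/-- SIZE2. Consecutive gaps are comparable if the window continues.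

Proof. `w t = log |P t / Q t|`, `c₁ / t ^ k ≤ w t ≤ c₂ / t ^ k` for large `t`, `c₂ ≤ 2 c₁`, `k ≥ 1` (see S_SIZE); `n = ν 0`. (1) `ν 2 ≤ 4 n`:
otherwise the sum of the `w j`, `n ≤ j < 4 n`, which is at least `3 n c₁ / (4 n) ^ k`, is at most `w x + w (x + 1) ≤ 3 w x`. For `k = 1` this is
false for large `x` (`w x ≤ c₂ / x`). For `k ≥ 2`: `w x ≥ c₁ 4 ^ (-k) n ^ (1 - k)`, and the sum of all `w (x + i) ≥ w x / 4` (`x` large), `i ≤ K₁`, is the sum of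
the `w j`, `ν 0 ≤ j < ν (K₁ + 1)`, which is at most `2 c₂ n ^ (1 - k)`: false for `K₁ = 4 ^ (k + 3)`. (2) So
`(ν 2 - ν 1) c₁ / (4 n) ^ k ≤ w (x + 1) ≤ 2 w x ≤ 2 (ν 1 - ν 0) c₂ / n ^ k`. -/
def S_SIZE2 : Prop := ∀ (P Q : ℤ[X]), P ≠ 0 → Q ≠ 0 → P.natDegree = Q.natDegree →
  |P.leadingCoeff| = |Q.leadingCoeff| →
  (∃ N : ℕ, ∀ n : ℕ, N ≤ n → |Q.eval (n : ℤ)| < |P.eval (n : ℤ)|) →
  ∃ K₁ C X₀ : ℕ, ∀ (x : ℚ) (ν : ℕ → ℕ), (X₀ : ℚ) ≤ x → X₀ ≤ ν 0 →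
    (∀ i, i ≤ K₁ → ν i < ν (i + 1) ∧ Blk P Q (x + i) (ν i) (ν (i + 1))) → ν 2 - ν 1 ≤ C * (ν 1 - ν 0)

/-- WIN2. The rational numbers recovered from windows have bounded denominators. -/
def S_WIN2 : Prop := ∀ (P Q : ℤ[X]), P ≠ 0 → Q ≠ 0 → P.natDegree = Q.natDegree →
  |P.leadingCoeff| = |Q.leadingCoeff| → (∃ N : ℕ, ∀ n : ℕ, N ≤ n → |Q.eval (n : ℤ)| < |P.eval (n : ℤ)|) →
  ∀ p N₀ : ℕ, p.Prime → (∀ n : ℕ, N₀ ≤ n → P.eval (n : ℤ) ≠ 0 ∧ Q.eval (n : ℤ) ≠ 0) →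
  (∃ ε : ℝ, 0 < ε ∧ ∀ N' : ℕ, ∃ n, N' ≤ n ∧ ε * n ≤ |(VV p P Q N₀ n : ℝ)|) →
  ∃ K X₀ D : ℕ, 0 < D ∧ ∀ (x : ℚ) (ν : ℕ → ℕ), (X₀ : ℚ) ≤ x → X₀ ≤ ν 0 →
    (∀ i, i < K → ν i < ν (i + 1) ∧ Blk P Q (x + i) (ν i) (ν (i + 1))) → ∃ z : ℤ, D * x = z

end Pool.Agent.K9h58.SH
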