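import Pool.Agent.K9h58.SH.Stm2

/-!
# Leaf TAIL: the high powers of `p` contribute little
-/

set_option autoImplicit false

open Polynomial

namespace Pool.Agent.K9h58.SH

namespace TAIL

theorem ev_int (F : ℤ[X]) (j : ℤ) : ev F (0 + (j : ℚ)) = ((F.eval j : ℤ) : ℚ) := by
  unfold ev
  rw [zero_add, ← eq_intCast (Int.castRingHom ℚ) j, eval_map_apply]
  rfl

/-- few numbers with a high valuation in a short interval -/
theorem fiber (hlag : S_LAG) (F : ℤ[X]) (p : ℕ) (hp : p.Prime) (hF : F ≠ 0) (S : Finset ℕ)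
    (W k : ℕ) (hS : ∀ j ∈ S, ∀ j' ∈ S, |(j : ℤ) - j'| ≤ W)
    (hv : ∀ j ∈ S, F.eval (j : ℤ) ≠ 0 ∧ k ≤ padicValInt p (F.eval (j : ℤ)))
    (hW : F.leadingCoeff.natAbs * W ^ F.natDegree < p ^ k) : S.card ≤ F.natDegree := by
  by_contra hcon
  rw [not_le] at hcon
  obtain ⟨T, hTS, hT⟩ := Finset.exists_subset_card_eq (Nat.succ_le_of_lt hcon)
  have hT' : T.card = F.natDegree + 1 := hT
  let g := T.orderEmbOfFin hT'
  have hg : ∀ l, g l ∈ S := fun l => hTS (T.orderEmbOfFin_mem hT' l)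
  have h1 := hlag F p hp hF 0 (fun l => ((g l : ℕ) : ℤ)) W k ?_ ?_ ?_
  · exact absurd hW (not_lt.2 h1)
  · intro a b hab
    have h2 : ((g a : ℕ) : ℤ) = ((g b : ℕ) : ℤ) := hab
    have h3 : (g a : ℕ) = g b := by exact_mod_cast h2
    exact g.injective h3
  · intro l m
    exact hS _ (hg l) _ (hg m)
  · intro l
    right
    rw [ev_int, padicValRat.of_int]
    exact_mod_cast (hv _ (hg l)).2

/-- few numbers with a high valuation -/
theorem count (hlag : S_LAG) (F : ℤ[X]) (p : ℕ) (hp : p.Prime) (hF : F ≠ 0) (m n : ℕ)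
    (hmn : m ≤ n) (W k : ℕ) (hW0 : 0 < W)
    (hne : ∀ j ∈ Finset.Ico m n, F.eval (j : ℤ) ≠ 0)
    (hW : F.leadingCoeff.natAbs * W ^ F.natDegree < p ^ k) :
    (((Finset.Ico m n).filter fun j : ℕ => k ≤ padicValInt p (F.eval (j : ℤ))).card : ℝ) ≤
      F.natDegree * (((n : ℝ) - m) / W + 1) := by
  classical
  have h1 : ((Finset.Ico m n).filter fun j : ℕ => k ≤ padicValInt p (F.eval (j : ℤ))).card ≤
      F.natDegree * (Finset.range ((n - m) / W + 1)).card := by
    refine Finset.card_le_mul_card_image_of_maps_to (f := fun j => (j - m) / W) ?_ _ ?_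
    · intro j hj
      rw [Finset.mem_filter, Finset.mem_Ico] at hj
      rw [Finset.mem_range, Nat.lt_succ_iff]
      exact Nat.div_le_div_right (by omega)
    · intro q _
      refine fiber hlag F p hp hF _ W k ?_ ?_ hW
      · intro j hj j' hj'
        rw [Finset.mem_filter, Finset.mem_filter, Finset.mem_Ico] at hj hj'
        have a1 := Nat.div_add_mod (j - m) W
        have a2 := Nat.div_add_mod (j' - m) W
        have a3 := Nat.mod_lt (j - m) hW0
        have a4 := Nat.mod_lt (j' - m) hW0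
        rw [hj.2] at a1
        rw [hj'.2] at a2
        have b1 : ((j - m : ℕ) : ℤ) = j - m := by
          rw [Nat.cast_sub hj.1.1.1]
        have b2 : ((j' - m : ℕ) : ℤ) = j' - m := by
          rw [Nat.cast_sub hj'.1.1.1]
        rw [abs_le]
        constructor <;> omega
      · intro j hj
        rw [Finset.mem_filter, Finset.mem_filter] at hj
        exact ⟨hne j hj.1.1, hj.1.2⟩
  have h2 : (((Finset.Ico m n).filter fun j : ℕ => k ≤ padicValInt p (F.eval (j : ℤ))).card : ℝ) ≤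
      F.natDegree * (((n - m) / W : ℕ) + 1 : ℝ) := by
    rw [Finset.card_range] at h1
    exact_mod_cast h1
  refine h2.trans (mul_le_mul_of_nonneg_left ?_ (Nat.cast_nonneg _))
  have h3 : (((n - m) / W : ℕ) : ℝ) ≤ ((n - m : ℕ) : ℝ) / W := Nat.cast_div_le
  rw [Nat.cast_sub hmn] at h3
  linarith

/-- summation by levels -/
theorem levels (v : ℕ → ℕ) (I : Finset ℕ) (k₁ H : ℕ) (hv : ∀ j ∈ I, v j ≤ H) :
    ∑ j ∈ I, (v j - min (v j) k₁) = ∑ k ∈ Finset.Ioc k₁ H, (I.filter fun j => k ≤ v j).card := by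
  classical
  have h1 : ∀ j ∈ I, v j - min (v j) k₁ = ∑ k ∈ Finset.Ioc k₁ H, if k ≤ v j then 1 else 0 := by
    intro j hj
    have h2 : (Finset.Ioc k₁ H).filter (fun k => k ≤ v j) = Finset.Ioc k₁ (v j) := by
      ext k
      rw [Finset.mem_filter, Finset.mem_Ioc, Finset.mem_Ioc]
      have := hv j hj
      constructor
      · rintro ⟨⟨a, _⟩, c⟩
        exact ⟨a, c⟩
      · rintro ⟨a, c⟩
        exact ⟨⟨a, c.trans this⟩, c⟩
    rw [← Finset.card_filter, h2, Nat.card_Ioc]
    omega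
  rw [Finset.sum_congr rfl h1, Finset.sum_comm]
  refine Finset.sum_congr rfl fun k _ => ?_
  rw [Finset.card_filter]

theorem pow_floor_le (D t : ℕ) : (1 / 2 : ℝ) ^ (t / (D + 1)) ≤
    2 * ((1 / 2 : ℝ) ^ (1 / ((D : ℝ) + 1))) ^ t := by
  have hD : (0 : ℝ) < (D : ℝ) + 1 := by positivity
  rw [← Real.rpow_natCast, ← Real.rpow_natCast, ← Real.rpow_mul (by norm_num)]
  have h1 : (t : ℝ) / ((D : ℝ) + 1) < ((t / (D + 1) : ℕ) : ℝ) + 1 := by
    rw [div_lt_iff₀ hD]
    have h2 : t < (t / (D + 1) + 1) * (D + 1) := by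
      have := Nat.lt_div_mul_add (a := t) (b := D + 1) (Nat.succ_pos D)
      nlinarith
    exact_mod_cast h2
  have h4 : 1 / ((D : ℝ) + 1) * t = t / ((D : ℝ) + 1) := by ring
  calc (1 / 2 : ℝ) ^ (((t / (D + 1) : ℕ)) : ℝ)
      ≤ (1 / 2 : ℝ) ^ ((-1 : ℝ) + 1 / ((D : ℝ) + 1) * t) := by
        apply Real.rpow_le_rpow_of_exponent_ge (by norm_num) (by norm_num)
        rw [h4]
        linarith
    _ = 2 * (1 / 2 : ℝ) ^ (1 / ((D : ℝ) + 1) * t) := by
        rw [Real.rpow_add (by norm_num), Real.rpow_neg_one]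
        norm_num

/-- the weights of the levels are summable -/
theorem summable_w (D e : ℕ) : Summable fun k : ℕ => (1 / 2 : ℝ) ^ ((k - e) / (D + 1)) := by
  rw [← summable_nat_add_iff e]
  simp only [Nat.add_sub_cancel]
  refine Summable.of_nonneg_of_le (fun t => by positivity) (fun t => pow_floor_le D t) ?_
  refine Summable.mul_left 2 (summable_geometric_of_lt_one (by positivity) ?_)
  exact Real.rpow_lt_one (by norm_num) (by norm_num) (by positivity)

end TAIL

open TAIL in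
theorem tail (hlag : S_LAG) : S_TAIL := by
  classical
  intro F p hp hF ε hε
  set d := F.natDegree with hd
  set e := F.leadingCoeff.natAbs with he
  have he1 : e < p ^ e := Nat.lt_pow_self hp.one_lt
  obtain ⟨s, hs⟩ := (summable_iff_vanishing_norm.1 (summable_w d e)) (ε / (d + 1))
    (by positivity)
  refine ⟨e + s.sup id, d, ?_⟩
  intro k₁ hk₁ m n H hmn hj
  rw [levels (fun j => padicValInt p (F.eval (j : ℤ))) (Finset.Ico m n) k₁ H fun j h => (hj j h).2]
  have hdisj : Disjoint (Finset.Ioc k₁ H) s := by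
    rw [Finset.disjoint_left]
    intro k hk hks
    rw [Finset.mem_Ioc] at hk
    have h1 : k ≤ s.sup id := Finset.le_sup (f := id) hks
    omega
  have hsm := hs _ hdisj
  have hmn' : (0 : ℝ) ≤ (n : ℝ) - m := by
    have : (m : ℝ) ≤ n := by exact_mod_cast hmn
    linarith
  have hterm : ∀ k ∈ Finset.Ioc k₁ H,
      (((Finset.Ico m n).filter fun j : ℕ => k ≤ padicValInt p (F.eval (j : ℤ))).card : ℝ) ≤
        d * ((n : ℝ) - m) * (1 / 2 : ℝ) ^ ((k - e) / (d + 1)) + d := by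
    intro k hk
    rw [Finset.mem_Ioc] at hk
    have hek : e ≤ k := by omega
    have hWk : e * (p ^ ((k - e) / (d + 1))) ^ d < p ^ k := by
      have h1 : (k - e) / (d + 1) * d ≤ k - e := by
        have h2 := Nat.div_mul_le_self (k - e) (d + 1)
        nlinarith
      calc e * (p ^ ((k - e) / (d + 1))) ^ d < p ^ e * (p ^ ((k - e) / (d + 1))) ^ d :=
            Nat.mul_lt_mul_of_pos_right he1 (pow_pos (pow_pos hp.pos _) _)
        _ = p ^ (e + (k - e) / (d + 1) * d) := by rw [pow_add, pow_mul]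
        _ ≤ p ^ k := Nat.pow_le_pow_right hp.pos (by omega)
    have h3 := count hlag F p hp hF m n hmn (p ^ ((k - e) / (d + 1))) k (pow_pos hp.pos _)
      (fun j h => (hj j h).1) hWk
    refine h3.trans ?_
    have h4 : ((n : ℝ) - m) / ((p ^ ((k - e) / (d + 1)) : ℕ) : ℝ) ≤
        ((n : ℝ) - m) * (1 / 2 : ℝ) ^ ((k - e) / (d + 1)) := by
      rw [div_eq_mul_inv]
      refine mul_le_mul_of_nonneg_left ?_ hmn'
      rw [one_div, inv_pow]
      have h5 : (2 : ℝ) ^ ((k - e) / (d + 1)) ≤ ((p ^ ((k - e) / (d + 1)) : ℕ) : ℝ) := by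
        push_cast
        exact pow_le_pow_left₀ (by norm_num) (by exact_mod_cast hp.two_le) _
      exact inv_anti₀ (by positivity) h5
    have hd0 : (0 : ℝ) ≤ (d : ℝ) := Nat.cast_nonneg d
    nlinarith [mul_le_mul_of_nonneg_left h4 hd0]
  push_cast
  calc ∑ k ∈ Finset.Ioc k₁ H,
        (((Finset.Ico m n).filter fun j : ℕ => k ≤ padicValInt p (F.eval (j : ℤ))).card : ℝ)
      ≤ ∑ k ∈ Finset.Ioc k₁ H, (d * ((n : ℝ) - m) * (1 / 2 : ℝ) ^ ((k - e) / (d + 1)) + d) :=
        Finset.sum_le_sum hterm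
    _ = d * ((n : ℝ) - m) * ∑ k ∈ Finset.Ioc k₁ H, (1 / 2 : ℝ) ^ ((k - e) / (d + 1)) +
        ((H - k₁ : ℕ) : ℝ) * d := by
        rw [Finset.sum_add_distrib, ← Finset.mul_sum, Finset.sum_const, Nat.card_Ioc, nsmul_eq_mul]
    _ ≤ ε * (n - m) + d * (1 + H) := by
        have h6 : ∑ k ∈ Finset.Ioc k₁ H, (1 / 2 : ℝ) ^ ((k - e) / (d + 1)) ≤ ε / (d + 1) := by
          refine le_trans ?_ hsm.le
          exact le_abs_self _
        have h7 : (d : ℝ) * ((n : ℝ) - m) *
            ∑ k ∈ Finset.Ioc k₁ H, (1 / 2 : ℝ) ^ ((k - e) / (d + 1)) ≤ ε * (n - m) := by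
          calc (d : ℝ) * ((n : ℝ) - m) *
              ∑ k ∈ Finset.Ioc k₁ H, (1 / 2 : ℝ) ^ ((k - e) / (d + 1))
              ≤ (d : ℝ) * ((n : ℝ) - m) * (ε / (d + 1)) :=
                mul_le_mul_of_nonneg_left h6 (mul_nonneg (Nat.cast_nonneg d) hmn')
            _ = ((d : ℝ) / (d + 1)) * (ε * (n - m)) := by ring
            _ ≤ 1 * (ε * (n - m)) := by
                refine mul_le_mul_of_nonneg_right ?_ (mul_nonneg hε.le hmn')
                rw [div_le_one (by positivity)]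
                linarith
            _ = ε * (n - m) := one_mul _
        have h8 : ((H - k₁ : ℕ) : ℝ) ≤ 1 + H := by
          have : ((H - k₁ : ℕ) : ℝ) ≤ H := by exact_mod_cast Nat.sub_le H k₁
          linarith
        have h9 : ((H - k₁ : ℕ) : ℝ) * d ≤ d * (1 + H) := by
          rw [mul_comm]
          exact mul_le_mul_of_nonneg_left h8 (Nat.cast_nonneg d)
        linarith

end Pool.Agent.K9h58.SH
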