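import Pool.Agent.K9h58.SH.Eng

/-!
# Project SH: the theorem on slowly growing hypergeometric sequences
-/

set_option autoImplicit false
set_option maxHeartbeats 1000000

namespace Pool.Agent.K9h58.SH

open Polynomial Filter Topology
open Pool.Agent.TH255.HC Pool.Agent.TH255.QI Pool.Agent.K9h58.QD Pool.Agent.H43R

lemma top_sign {F : ℤ[X]} (hF : F ≠ 0) :
    (∃ N : ℕ, ∀ n : ℕ, N ≤ n → 0 < F.eval (n : ℤ)) ∨
      ∃ N : ℕ, ∀ n : ℕ, N ≤ n → F.eval (n : ℤ) < 0 := by
  set G := F.map (Int.castRingHom ℚ) with hG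
  have hG0 : G ≠ 0 := win_map_ne hF
  have hev : ∀ n : ℕ, G.eval (n : ℚ) = ((F.eval (n : ℤ) : ℤ) : ℚ) := fun n => win_ev_nat F n
  by_cases hdeg : 0 < G.degree
  · rcases le_total 0 G.leadingCoeff with h | h
    · have h1 := (tendsto_natCast_atTop_atTop (R := ℚ)).eventually
        ((tendsto_atTop_of_leadingCoeff_nonneg G hdeg h).eventually_gt_atTop 0)
      obtain ⟨N, hN⟩ := eventually_atTop.1 h1
      refine Or.inl ⟨N, fun n hn => ?_⟩
      have := hN n hn
      rw [hev] at this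
      exact_mod_cast this
    · have h1 := (tendsto_natCast_atTop_atTop (R := ℚ)).eventually
        ((tendsto_atBot_of_leadingCoeff_nonpos G hdeg h).eventually_lt_atBot 0)
      obtain ⟨N, hN⟩ := eventually_atTop.1 h1
      refine Or.inr ⟨N, fun n hn => ?_⟩
      have := hN n hn
      rw [hev] at this
      exact_mod_cast this
  · have h1 : G = C (G.coeff 0) := eq_C_of_degree_le_zero (not_lt.1 hdeg)
    have h2 : G.coeff 0 ≠ 0 := by
      intro h0
      apply hG0
      rw [h1, h0, C_0]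
    have h3 : ∀ n : ℕ, ((F.eval (n : ℤ) : ℤ) : ℚ) = G.coeff 0 := by
      intro n
      rw [← hev, h1, eval_C, coeff_C_zero]
    rcases lt_or_gt_of_ne h2 with h | h
    · refine Or.inr ⟨0, fun n _ => ?_⟩
      rw [← h3 n] at h
      exact_mod_cast h
    · refine Or.inl ⟨0, fun n _ => ?_⟩
      have h' : 0 < G.coeff 0 := h
      rw [← h3 n] at h'
      exact_mod_cast h'

/-- **Slowly growing hypergeometric sequences.** -/
theorem dt_slow (hW : S_WIN) {P Q : ℤ[X]} (hQ : Q ≠ 0)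
    (hd : P.natDegree = Q.natDegree) (hl : |P.leadingCoeff| = |Q.leadingCoeff|)
    {p : ℕ} (hp : p.Prime) {a : ℕ → ℚ} (ha : HRec P Q a)
    (hmon : (∀ᶠ n : ℕ in atTop, padicValRat p (a (n + 1)) ≤ padicValRat p (a n)) ∨
      ∀ᶠ n : ℕ in atTop, padicValRat p (a n) ≤ padicValRat p (a (n + 1)))
    (hne : ∃ᶠ n : ℕ in atTop, padicValRat p (a (n + 1)) ≠ padicValRat p (a n)) :
    ∃ K : ℕ, ∀ {α : ℝ}, 0 < α → ∀ {P' : (ℕ → ℚ) → Prop},
      (∀ A δ : ℝ, δ < 1 / 2 → DT (Qu A δ) (fun _ v => P' v)) →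
      DT (Vls a K α) (fun _ v => P' v) := by
  have := Fact.mk hp
  have hP : P ≠ 0 := by
    rintro rfl
    rw [leadingCoeff_zero, abs_zero] at hl
    exact hQ (leadingCoeff_eq_zero.1 (abs_eq_zero.1 hl.symm))
  obtain ⟨XP, hXP⟩ := win_ne hP
  obtain ⟨XQ, hXQ⟩ := win_ne hQ
  obtain ⟨N₀, hN₀⟩ := eventually_atTop.1 ha
  set N : ℕ := max N₀ (max XP XQ) with hN
  have hPn : ∀ n : ℕ, N ≤ n → P.eval (n : ℤ) ≠ 0 := by
    intro n hn h0
    have h1 := hXP n (by exact_mod_cast (by omega : XP ≤ n))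
    rw [win_ev_nat, h0] at h1
    simp at h1
  have hQn : ∀ n : ℕ, N ≤ n → Q.eval (n : ℤ) ≠ 0 := by
    intro n hn h0
    have h1 := hXQ n (by exact_mod_cast (by omega : XQ ≤ n))
    rw [win_ev_nat, h0] at h1
    simp at h1
  have hval : ∀ n : ℕ, N ≤ n → (padicValInt p (Q.eval (n : ℤ)) : ℤ) + padicValRat p (a (n + 1)) =
      padicValInt p (P.eval (n : ℤ)) + padicValRat p (a n) := by
    intro n hn
    obtain ⟨e1, e2⟩ := hN₀ n (by omega)
    obtain ⟨e3, -⟩ := hN₀ (n + 1) (by omega)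
    have e4 := congrArg (padicValRat p) e2
    rw [padicValRat.mul (by exact_mod_cast hQn n hn) e3,
      padicValRat.mul (by exact_mod_cast hPn n hn) e1, padicValRat.of_int,
      padicValRat.of_int] at e4
    exact e4
  -- `P ^ 2 ≠ Q ^ 2`
  have hF : P ^ 2 - Q ^ 2 ≠ 0 := by
    intro h0
    apply hne
    refine eventually_atTop.2 ⟨N, fun n hn => ?_⟩
    rw [not_not]
    have e1 := congrArg (eval (n : ℤ)) h0
    rw [eval_sub, eval_pow, eval_pow, eval_zero, sub_eq_zero] at e1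
    have e2 := sq_eq_sq_iff_eq_or_eq_neg.1 e1
    have e3 : padicValInt p (P.eval (n : ℤ)) = padicValInt p (Q.eval (n : ℤ)) := by
      rcases e2 with e2 | e2
      · rw [e2]
      · rw [e2]
        unfold padicValInt
        rw [Int.natAbs_neg]
    have e4 := hval n hn
    rw [e3] at e4
    linarith
  have hor : ∀ R : ℤ[X], ∀ S : ℤ[X], ∀ b : ℕ → ℚ,
      (∀ n : ℕ, N ≤ n → (padicValInt p (S.eval (n : ℤ)) : ℤ) + padicValRat p (b (n + 1)) =
        padicValInt p (R.eval (n : ℤ)) + padicValRat p (b n)) →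
      ((∀ᶠ n : ℕ in atTop, padicValRat p (b (n + 1)) ≤ padicValRat p (b n)) ∨
        ∀ᶠ n : ℕ in atTop, padicValRat p (b n) ≤ padicValRat p (b (n + 1))) →
      (∃ᶠ n : ℕ in atTop, padicValRat p (b (n + 1)) ≠ padicValRat p (b n)) →
      ((∃ N : ℕ, (∀ n : ℕ, N ≤ n →
          padicValInt p (R.eval (n : ℤ)) ≤ padicValInt p (S.eval (n : ℤ))) ∧
        ∀ N' : ℕ, ∃ n, N' ≤ n ∧
          padicValInt p (R.eval (n : ℤ)) < padicValInt p (S.eval (n : ℤ))) ∨
      (∃ N : ℕ, (∀ n : ℕ, N ≤ n →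
          padicValInt p (S.eval (n : ℤ)) ≤ padicValInt p (R.eval (n : ℤ))) ∧
        ∀ N' : ℕ, ∃ n, N' ≤ n ∧
          padicValInt p (S.eval (n : ℤ)) < padicValInt p (R.eval (n : ℤ)))) := by
    intro R S b hb hm hn
    rw [frequently_atTop] at hn
    rcases hm with hm | hm
    · obtain ⟨N₁, hN₁⟩ := eventually_atTop.1 hm
      refine Or.inl ⟨max N N₁, fun n hn' => ?_, fun N' => ?_⟩
      · have e1 := hb n (by omega)
        have e2 := hN₁ n (by omega)
        omega
      · obtain ⟨n, hn1, hn2⟩ := hn (max N' (max N N₁))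
        refine ⟨n, by omega, ?_⟩
        have e1 := hb n (by omega)
        have e2 := hN₁ n (by omega)
        omega
    · obtain ⟨N₁, hN₁⟩ := eventually_atTop.1 hm
      refine Or.inr ⟨max N N₁, fun n hn' => ?_, fun N' => ?_⟩
      · have e1 := hb n (by omega)
        have e2 := hN₁ n (by omega)
        omega
      · obtain ⟨n, hn1, hn2⟩ := hn (max N' (max N N₁))
        refine ⟨n, by omega, ?_⟩
        have e1 := hb n (by omega)
        have e2 := hN₁ n (by omega)
        omega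
  rcases top_sign hF with ⟨N₁, hN₁⟩ | ⟨N₁, hN₁⟩
  · refine dt_slow_gt hW hP hQ hd hl ⟨N₁, fun n hn => ?_⟩ hp (hor P Q a hval hmon hne) ha
    have e1 := hN₁ n hn
    rw [eval_sub, eval_pow, eval_pow] at e1
    exact sq_lt_sq.1 (by linarith)
  · obtain ⟨K, hK⟩ := dt_slow_gt hW hQ hP hd.symm hl.symm ⟨N₁, fun n hn => by
        have e1 := hN₁ n hn
        rw [eval_sub, eval_pow, eval_pow] at e1
        exact sq_lt_sq.1 (by linarith)⟩ hp
      (hor Q P (fun n => (a n)⁻¹) (fun n hn => by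
        have e1 := hval n hn
        rw [padicValRat.inv, padicValRat.inv]
        linarith) (by
        rcases hmon with h | h
        · refine Or.inr (h.mono fun n hn => ?_)
          rw [padicValRat.inv, padicValRat.inv]
          linarith
        · refine Or.inl (h.mono fun n hn => ?_)
          rw [padicValRat.inv, padicValRat.inv]
          linarith) (hne.mono fun n hn => by
        rw [padicValRat.inv, padicValRat.inv]
        intro h
        apply hn
        linarith)) ha.inv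
    exact ⟨K, fun hα _ hP' => dt_inv' (hK hα hP')⟩

end Pool.Agent.K9h58.SH
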